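import Pool.Agent.Lib.MP_de5eaa_nt.Near.O5
import Pool.Agent.Lib.MP_de5eaa_nt.Poi.U1
import Pool.Agent.Lib.MP_de5eaa_nt.Poi.P4
import Pool.Agent.Lib.MP_de5eaa_nt.Poi.I3
import Pool.Agent.Lib.MP_de5eaa_nt.Poi.F0

/-! Exponential sums over the reduced residues modulo `lcm (1, ..., T)`. -/

set_option autoImplicit false

namespace Pool.Agent.Lib.MP_de5eaa_nt.Win

open Finset
open Pool.Agent.Lib.MP_de5eaa_nt.Near (hs wq e1 SS e1_add norm_e1 e1_conj e1_int num_odd four_dvd_den close_card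
  norm_e1_sub_one)
open Pool.Agent.Lib.MP_de5eaa_nt.Poi (QQ UU YY)

theorem V1_step {Q w u : ℕ} {h : ℚ} (hd : h.den ∣ Q) (h4 : 4 ∣ h.den) (hu : Q.Coprime u)
    (hw : w ≡ 1 + h.den / 2 [MOD h.den]) :
    ∃ z : ℤ, ((u * w % Q : ℕ) : ℝ) * ((h : ℚ) : ℝ) = (u : ℝ) * ((h : ℚ) : ℝ) + 1 / 2 + z := by
  obtain ⟨s, hs⟩ := hd
  obtain ⟨c, hc⟩ := h4
  have hb0 : h.den ≠ 0 := h.den_nz
  have hc0 : c ≠ 0 := by
    rintro rfl
    exact hb0 (by rw [hc])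
  -- `u` is odd
  have hu2 : ¬ 2 ∣ u := by
    intro h2
    have h3 : 2 ∣ Q := by
      rw [hs, hc]
      exact ⟨2 * c * s, by ring⟩
    have := Nat.dvd_gcd h3 h2
    rw [hu] at this
    omega
  have ha2 : ¬ (2 : ℤ) ∣ h.num := num_odd ⟨c, hc⟩
  obtain ⟨u', hu'⟩ : ∃ u' : ℤ, (u : ℤ) = 2 * u' + 1 := ⟨(u : ℤ) / 2, by omega⟩
  obtain ⟨a', ha'⟩ : ∃ a' : ℤ, h.num = 2 * a' + 1 := ⟨h.num / 2, by omega⟩
  have h5 : ((h.den : ℕ) : ℤ) ∣ ((1 + h.den / 2 : ℕ) : ℤ) - (w : ℤ) := Nat.modEq_iff_dvd.1 hw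
  obtain ⟨k, hk⟩ := h5
  have h6 : h.den / 2 = 2 * c := by omega
  rw [h6] at hk
  have h7 : Q * (u * w / Q) + u * w % Q = u * w := Nat.div_add_mod (u * w) Q
  have h8 : ((h : ℚ) : ℝ) = (h.num : ℝ) / ((h.den : ℕ) : ℝ) := Rat.cast_def _
  refine ⟨2 * u' * a' + u' + a' - u * k * h.num - s * ((u * w / Q : ℕ) : ℤ) * h.num, ?_⟩
  have hb : ((h.den : ℕ) : ℝ) ≠ 0 := by exact_mod_cast hb0
  have hcr : ((h.den : ℕ) : ℝ) = 4 * (c : ℝ) := by exact_mod_cast hc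
  have hsr : (Q : ℝ) = ((h.den : ℕ) : ℝ) * s := by exact_mod_cast hs
  have hkr : (1 + 2 * (c : ℝ)) - (w : ℝ) = ((h.den : ℕ) : ℝ) * (k : ℝ) := by exact_mod_cast hk
  have h7r : ((u * w % Q : ℕ) : ℝ) = (u : ℝ) * w - (Q : ℝ) * ((u * w / Q : ℕ) : ℝ) := by
    have : (Q : ℝ) * ((u * w / Q : ℕ) : ℝ) + ((u * w % Q : ℕ) : ℝ) = (u : ℝ) * w := by exact_mod_cast h7
    linarith
  have hur : (u : ℝ) = 2 * (u' : ℝ) + 1 := by exact_mod_cast hu'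
  have har : (h.num : ℝ) = 2 * (a' : ℝ) + 1 := by exact_mod_cast ha'
  rw [h7r, h8, hsr]
  have hwr : (w : ℝ) = 1 + 2 * (c : ℝ) - ((h.den : ℕ) : ℝ) * (k : ℝ) := by linarith
  rw [hwr]
  set q : ℝ := ((u * w / Q : ℕ) : ℝ) with hq
  have hcast : ((2 * u' * a' + u' + a' - u * k * h.num - s * ((u * w / Q : ℕ) : ℤ) * h.num : ℤ) : ℝ) =
      2 * (u' : ℝ) * a' + u' + a' - u * k * h.num - s * q * h.num := by
    push_cast
    rfl
  rw [hcast]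
  have e1 : (((u : ℝ) * (1 + 2 * (c : ℝ) - ((h.den : ℕ) : ℝ) * (k : ℝ)) - ((h.den : ℕ) : ℝ) * s * q) *
      ((h.num : ℝ) / ((h.den : ℕ) : ℝ))) =
      (u : ℝ) * ((h.num : ℝ) / ((h.den : ℕ) : ℝ)) + (u : ℝ) * h.num * (2 * (c : ℝ) / ((h.den : ℕ) : ℝ)) -
        u * k * h.num - s * q * h.num := by
    field_simp
  rw [e1]
  have e2 : 2 * (c : ℝ) / ((h.den : ℕ) : ℝ) = 1 / 2 := by
    rw [hcr]
    have : (c : ℝ) ≠ 0 := by exact_mod_cast hc0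
    field_simp
    norm_num
  rw [e2]
  have e3 : (u : ℝ) * h.num * (1 / 2) = 2 * (u' : ℝ) * a' + u' + a' + 1 / 2 := by
    rw [hur, har]
    ring
  rw [e3]
  ring

/-- The sum of the cosines vanishes. -/
theorem V1_sum {Q : ℕ} (hQ : 0 < Q) {h : ℚ} (hd : h.den ∣ Q) (h4 : 4 ∣ h.den) :
    ∑ u ∈ UU Q, Real.cos (2 * Real.pi * ((u : ℝ) * ((h : ℚ) : ℝ))) = 0 := by
  have hcop : h.den.Coprime (1 + h.den / 2) := by
    obtain ⟨c, hc⟩ := h4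
    have e : h.den = 2 * (2 * c) := by omega
    have e' : h.den / 2 = 2 * c := by omega
    rw [e', e]
    apply Nat.Coprime.mul_left
    · rw [Nat.coprime_two_left]
      exact ⟨c, by ring⟩
    · have : 1 + 2 * c = 2 * c + 1 := by ring
      rw [this]
      exact (Nat.coprime_self_add_right).2 (Nat.coprime_one_right _)
  obtain ⟨w, hw1, hw2, -⟩ := Pool.Agent.Lib.MP_de5eaa_nt.Poi.lift (e0 := 1) hQ hd (one_dvd _)
    (Nat.coprime_one_right _) hcop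
  have h1 := Pool.Agent.Lib.MP_de5eaa_nt.Poi.sum_unit hQ hw1
    (fun u : ℕ => Real.cos (2 * Real.pi * ((u : ℝ) * ((h : ℚ) : ℝ))))
  have h2 : ∑ u ∈ UU Q, Real.cos (2 * Real.pi * (((u * w % Q : ℕ) : ℝ) * ((h : ℚ) : ℝ))) =
      ∑ u ∈ UU Q, -Real.cos (2 * Real.pi * ((u : ℝ) * ((h : ℚ) : ℝ))) := by
    refine Finset.sum_congr rfl fun u hu => ?_
    unfold UU at hu
    obtain ⟨z, hz⟩ := V1_step hd h4 (mem_filter.1 hu).2 hw2
    rw [hz, show 2 * Real.pi * ((u : ℝ) * ((h : ℚ) : ℝ) + 1 / 2 + z) =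
      (2 * Real.pi * ((u : ℝ) * ((h : ℚ) : ℝ)) + Real.pi) + z * (2 * Real.pi) by ring,
      Real.cos_add_int_mul_two_pi, Real.cos_add_pi]
  rw [Finset.sum_neg_distrib] at h2
  linarith

/-- The square of the absolute value of an exponential sum. -/
theorem norm_sq_cos (I : Finset ℕ) (y : ℕ → ℝ) :
    ‖∑ n ∈ I, e1 (y n)‖ ^ 2 = ∑ n ∈ I, ∑ m ∈ I, Real.cos (2 * Real.pi * (y n - y m)) := by
  have h1 : ((‖∑ n ∈ I, e1 (y n)‖ ^ 2 : ℝ) : ℂ) = ∑ n ∈ I, ∑ m ∈ I, e1 (y n - y m) := by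
    have h2 : ((‖∑ n ∈ I, e1 (y n)‖ ^ 2 : ℝ) : ℂ) =
        (∑ n ∈ I, e1 (y n)) * (starRingEnd ℂ) (∑ n ∈ I, e1 (y n)) := by
      rw [Complex.mul_conj, Complex.normSq_eq_norm_sq]
    rw [h2, map_sum, Finset.sum_mul_sum]
    refine Finset.sum_congr rfl fun n _ => Finset.sum_congr rfl fun m _ => ?_
    rw [e1_conj, ← e1_add, sub_eq_add_neg]
  have h2 := congrArg Complex.re h1
  rw [Complex.ofReal_re] at h2
  rw [h2, Complex.re_sum]
  refine Finset.sum_congr rfl fun n _ => ?_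
  rw [Complex.re_sum]
  refine Finset.sum_congr rfl fun m _ => ?_
  unfold e1
  have : (2 * (Real.pi : ℂ) * ((y n - y m : ℝ) : ℂ) * Complex.I) = ((2 * Real.pi * (y n - y m) : ℝ) : ℂ) * Complex.I := by
    push_cast
    ring
  rw [this, Complex.exp_ofReal_mul_I_re]

theorem V2_far {T n m t : ℕ} {j : ℤ} (hj : ¬ (2 : ℤ) ^ (t + 1) ∣ j) (hn : 1 ≤ n) (hm : m ≤ T)
    (h : n + 2 ^ (t + 2) ≤ m) :
    ∑ u ∈ UU (QQ T), Real.cos (2 * Real.pi * ((j : ℝ) * YY u n - (j : ℝ) * YY u m)) = 0 := by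
  have hd : ((j : ℚ) * hs n m).den ∣ QQ T := by
    have h1 := Rat.mul_den_dvd (j : ℚ) (hs n m)
    rw [Rat.den_intCast, one_mul] at h1
    exact h1.trans (Pool.Agent.Lib.MP_de5eaa_nt.Poi.den_dvd_QQ hn (by omega))
  have h1 := V1_sum (Pool.Agent.Lib.MP_de5eaa_nt.Poi.P4_QQ_pos T) hd (four_dvd_den hn h hj)
  rw [← h1]
  refine Finset.sum_congr rfl fun u _ => ?_
  have h2 := Pool.Agent.Lib.MP_de5eaa_nt.Poi.I3_YY hn ((Nat.le_add_right _ _).trans h) u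
  congr 1
  rw [← mul_sub, show YY u n - YY u m = -(YY u m - YY u n) by ring, h2]
  push_cast
  ring

theorem V2_le {t : ℕ} {j : ℤ} (hj : ¬ (2 : ℤ) ^ (t + 1) ∣ j) (M L : ℕ) :
    ∑ u ∈ UU (QQ (M + L)), ‖∑ n ∈ Ioc M (M + L), e1 ((j : ℝ) * YY u n)‖ ^ 2 ≤
      8 * 2 ^ t * L * ((QQ (M + L)).totient : ℝ) := by
  set I := Ioc M (M + L) with hI
  set T := M + L with hT
  set d := 2 ^ (t + 2) with hd
  have hd1 : 1 ≤ d := Nat.one_le_two_pow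
  have e : ∑ u ∈ UU (QQ T), ‖∑ n ∈ I, e1 ((j : ℝ) * YY u n)‖ ^ 2 =
      ∑ n ∈ I, ∑ m ∈ I, ∑ u ∈ UU (QQ T), Real.cos (2 * Real.pi * ((j : ℝ) * YY u n - (j : ℝ) * YY u m)) := by
    rw [Finset.sum_congr rfl fun u _ => norm_sq_cos I (fun n => (j : ℝ) * YY u n), Finset.sum_comm]
    refine Finset.sum_congr rfl fun n _ => ?_
    rw [Finset.sum_comm]
  rw [e]
  have h1 : ∀ n ∈ I, ∑ m ∈ I, ∑ u ∈ UU (QQ T), Real.cos (2 * Real.pi * ((j : ℝ) * YY u n - (j : ℝ) * YY u m)) ≤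
      8 * 2 ^ t * ((QQ T).totient : ℝ) := by
    intro n hn
    rw [hI, mem_Ioc] at hn
    have h2 : ∀ m ∈ I, ∑ u ∈ UU (QQ T), Real.cos (2 * Real.pi * ((j : ℝ) * YY u n - (j : ℝ) * YY u m)) ≤
        if ¬ (n + d ≤ m ∨ m + d ≤ n) then ((QQ T).totient : ℝ) else 0 := by
      intro m hm
      rw [hI, mem_Ioc] at hm
      by_cases h : n + d ≤ m ∨ m + d ≤ n
      · rw [if_neg (not_not.2 h)]
        rcases h with h | h
        · exact (V2_far hj (by omega) (by omega) h).le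
        · refine le_of_eq ?_
          rw [← V2_far (T := T) (n := m) (m := n) hj (by omega) (by omega) h]
          refine Finset.sum_congr rfl fun u _ => ?_
          rw [← Real.cos_neg]
          congr 1
          ring
      · rw [if_pos h]
        refine (Finset.sum_le_sum fun u _ => Real.cos_le_one _).trans (le_of_eq ?_)
        rw [Finset.sum_const, Pool.Agent.Lib.MP_de5eaa_nt.Poi.card_UU, nsmul_eq_mul, mul_one]
    refine (Finset.sum_le_sum h2).trans ?_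
    rw [← Finset.sum_filter, Finset.sum_const, nsmul_eq_mul]
    apply mul_le_mul_of_nonneg_right _ (Nat.cast_nonneg _)
    have h3 : ((I.filter fun m => ¬ (n + d ≤ m ∨ m + d ≤ n)).card : ℝ) ≤ ((2 * d : ℕ) : ℝ) := by
      exact_mod_cast close_card M L d n hd1
    refine h3.trans (le_of_eq ?_)
    rw [hd]
    push_cast
    rw [pow_add]
    ring
  refine (Finset.sum_le_sum h1).trans (le_of_eq ?_)
  rw [Finset.sum_const, hI, Nat.card_Ioc, hT, Nat.add_sub_cancel_left, nsmul_eq_mul]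
  ring

end Pool.Agent.Lib.MP_de5eaa_nt.Win
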