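import Pool.Agent.Lib.MP_de5eaa_nt.Win.V1

/-! One prime: the exponential sum of the Wilson quotients and the exponential sum of the points. -/

set_option autoImplicit false

namespace Pool.Agent.Lib.MP_de5eaa_nt.Win

open Finset
open Pool.Agent.Lib.MP_de5eaa_nt.Near (hs wq e1 SS e1_add norm_e1 e1_conj e1_int norm_e1_sub_one)
open Pool.Agent.Lib.MP_de5eaa_nt.Poi (QQ UU YY)

theorem V3 {p M L u : ℕ} (hp : p.Prime) (hT : M + L < p) (hu : u * p ≡ 1 [MOD QQ (M + L)]) (j : ℤ) :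
    ‖SS j M L p‖ ^ 2 ≤ 2 * ‖∑ n ∈ Ioc M (M + L), e1 ((j : ℝ) * YY u n)‖ ^ 2 +
      2 * ((L : ℝ) * (2 * Real.pi * (|(j : ℝ)| * (((M + L : ℕ) : ℝ) / p)))) ^ 2 := by
  set I := Ioc M (M + L) with hI
  have hp0 : (0 : ℝ) < p := by exact_mod_cast hp.pos
  have hpt : ∀ n ∈ I, e1 ((j : ℝ) * wq n p / p) =
      e1 ((j : ℝ) * ((wq 1 p : ℝ) / p)) * (e1 ((j : ℝ) * YY u n) * e1 ((j : ℝ) * (((hs 1 n : ℚ) : ℝ) / p))) := by
    intro n hn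
    rw [hI, mem_Ioc] at hn
    obtain ⟨a, ha⟩ := Pool.Agent.Lib.MP_de5eaa_nt.Poi.wq_point hp hT hu (by omega : 1 ≤ n) hn.2
    rw [mul_div_assoc, ha, ← e1_add, ← e1_add]
    have h1 : (j : ℝ) * ((wq 1 p : ℝ) / p + ((hs 1 n : ℚ) : ℝ) / p + YY u n + a) =
        ((j : ℝ) * ((wq 1 p : ℝ) / p) + ((j : ℝ) * YY u n + (j : ℝ) * (((hs 1 n : ℚ) : ℝ) / p))) +
          (((j * a : ℤ)) : ℝ) := by
      push_cast
      ring
    rw [h1, e1_add _ (((j * a : ℤ)) : ℝ), e1_int, mul_one]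
  have h2 : SS j M L p = e1 ((j : ℝ) * ((wq 1 p : ℝ) / p)) *
      ∑ n ∈ I, (e1 ((j : ℝ) * YY u n) * e1 ((j : ℝ) * (((hs 1 n : ℚ) : ℝ) / p))) := by
    unfold SS
    rw [Finset.mul_sum]
    exact Finset.sum_congr rfl hpt
  have h3 : ‖SS j M L p‖ ≤ ‖∑ n ∈ I, e1 ((j : ℝ) * YY u n)‖ +
      (L : ℝ) * (2 * Real.pi * (|(j : ℝ)| * (((M + L : ℕ) : ℝ) / p))) := by
    rw [h2, norm_mul, norm_e1, one_mul]
    have e : ∑ n ∈ I, (e1 ((j : ℝ) * YY u n) * e1 ((j : ℝ) * (((hs 1 n : ℚ) : ℝ) / p))) =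
        (∑ n ∈ I, e1 ((j : ℝ) * YY u n)) +
          ∑ n ∈ I, (e1 ((j : ℝ) * YY u n) * (e1 ((j : ℝ) * (((hs 1 n : ℚ) : ℝ) / p)) - 1)) := by
      rw [← Finset.sum_add_distrib]
      refine Finset.sum_congr rfl fun n _ => ?_
      ring
    rw [e]
    refine (norm_add_le _ _).trans (add_le_add_right ?_ _)
    refine (norm_sum_le _ _).trans ?_
    have h4 : ∀ n ∈ I, ‖e1 ((j : ℝ) * YY u n) * (e1 ((j : ℝ) * (((hs 1 n : ℚ) : ℝ) / p)) - 1)‖ ≤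
        2 * Real.pi * (|(j : ℝ)| * (((M + L : ℕ) : ℝ) / p)) := by
      intro n hn
      rw [hI, mem_Ioc] at hn
      rw [norm_mul, norm_e1, one_mul]
      refine (norm_e1_sub_one _).trans ?_
      have h5 : (0 : ℝ) ≤ ((hs 1 n : ℚ) : ℝ) := by
        exact_mod_cast Pool.Agent.Lib.MP_de5eaa_nt.Poi.P2_hs_nonneg n
      have h6 : ((hs 1 n : ℚ) : ℝ) ≤ ((M + L : ℕ) : ℝ) := by
        have h7 : (hs 1 n : ℚ) ≤ ((M + L : ℕ) : ℚ) :=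
          le_trans (Pool.Agent.Lib.MP_de5eaa_nt.Poi.P2_hs_le n) (by exact_mod_cast hn.2)
        exact_mod_cast h7
      rw [abs_mul, abs_of_nonneg (div_nonneg h5 hp0.le)]
      have hpi := Real.pi_pos
      gcongr
    refine (Finset.sum_le_sum h4).trans (le_of_eq ?_)
    rw [Finset.sum_const, hI, Nat.card_Ioc, Nat.add_sub_cancel_left, nsmul_eq_mul]
  have h4 : 0 ≤ ‖SS j M L p‖ := norm_nonneg _
  have h5 := pow_le_pow_left₀ h4 h3 2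
  refine h5.trans ?_
  set a := ‖∑ n ∈ I, e1 ((j : ℝ) * YY u n)‖
  set b := (L : ℝ) * (2 * Real.pi * (|(j : ℝ)| * (((M + L : ℕ) : ℝ) / p)))
  nlinarith [sq_nonneg (a - b)]

theorem SS_le (j : ℤ) (M L p : ℕ) : ‖SS j M L p‖ ^ 2 ≤ (L : ℝ) ^ 2 := by
  have h1 : ‖SS j M L p‖ ≤ L := by
    unfold SS
    refine (norm_sum_le _ _).trans (le_of_eq ?_)
    rw [Finset.sum_congr rfl fun n _ => norm_e1 _, Finset.sum_const, Nat.card_Ioc, Nat.add_sub_cancel_left,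
      nsmul_eq_mul, mul_one]
  exact pow_le_pow_left₀ (norm_nonneg _) h1 2

end Pool.Agent.Lib.MP_de5eaa_nt.Win
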