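import Pool.Agent.Lib.MP_de5eaa_nt.Win.V3
import Pool.Agent.Lib.MP_de5eaa_nt.Poi.U2

/-! The second moment over the primes, uniformly in the orders. -/

set_option autoImplicit false

namespace Pool.Agent.Lib.MP_de5eaa_nt.Win

open Finset Filter Topology
open Pool.Agent.Lib.MP_de5eaa_nt.Near (hs wq e1 SS ppi)
open Pool.Agent.Lib.MP_de5eaa_nt.Poi (QQ UU YY)

theorem ev1 : ∀ᶠ x : ℕ in atTop, Real.log x * (Real.sqrt x + 1) ≤ ppi x := by
  have h1 : ∀ᶠ x : ℕ in atTop, (1 / 2 : ℝ) < (ppi x : ℝ) * Real.log x / (x : ℝ) :=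
    Pool.Agent.Lib.MP_de5eaa_nt.Near.ppi_tendsto.eventually (lt_mem_nhds (by norm_num))
  have h2 : ∀ᶠ x : ℕ in atTop, ‖Real.log (x : ℝ)‖ ≤ 1 / 2 * ‖(x : ℝ) ^ (1 / 4 : ℝ)‖ :=
    (tendsto_natCast_atTop_atTop (R := ℝ)).eventually
      ((isLittleO_log_rpow_atTop (r := 1 / 4) (by positivity)).bound (by positivity))
  filter_upwards [h1, h2, eventually_ge_atTop 2] with x h3 h4 h5
  have hx2 : (2 : ℝ) ≤ x := by exact_mod_cast h5
  have hx0 : (0 : ℝ) < x := by linarith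
  have hlog : 0 < Real.log x := Real.log_pos (by linarith)
  have hz0 : 0 < (x : ℝ) ^ (1 / 4 : ℝ) := Real.rpow_pos_of_pos hx0 _
  rw [Real.norm_eq_abs, abs_of_pos hlog, Real.norm_eq_abs, abs_of_pos hz0] at h4
  set z := (x : ℝ) ^ (1 / 4 : ℝ) with hz
  have hzz : z * z = Real.sqrt x := by
    rw [hz, ← Real.rpow_add hx0, Real.sqrt_eq_rpow]
    norm_num
  rw [lt_div_iff₀ hx0] at h3
  have h6 : 1 ≤ Real.sqrt x := by
    rw [Real.one_le_sqrt]
    linarith
  have h8 : Real.sqrt x * Real.sqrt x = x := Real.mul_self_sqrt hx0.le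
  have h7 : Real.log x * (Real.sqrt x + 1) * Real.log x ≤ ppi x * Real.log x := by
    have h9 : Real.log x * Real.log x ≤ (1 / 2 * z) * (1 / 2 * z) := mul_le_mul h4 h4 hlog.le (by positivity)
    have h10 : Real.log x * Real.log x ≤ 1 / 4 * Real.sqrt x := by
      rw [← hzz]
      linarith
    have h11 : (Real.log x * Real.log x) * (Real.sqrt x + 1) ≤ (1 / 4 * Real.sqrt x) * (2 * Real.sqrt x) :=
      mul_le_mul h10 (by linarith) (by positivity) (by positivity)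
    have h12 : (1 / 4 * Real.sqrt x) * (2 * Real.sqrt x) = 1 / 2 * (Real.sqrt x * Real.sqrt x) := by ring
    rw [h12, h8] at h11
    calc Real.log x * (Real.sqrt x + 1) * Real.log x = (Real.log x * Real.log x) * (Real.sqrt x + 1) := by ring
      _ ≤ 1 / 2 * x := h11
      _ ≤ _ := h3.le
  exact le_of_mul_le_mul_right h7 hlog

theorem ev2 : ∀ᶠ x : ℕ in atTop, 100000000 * Real.log x ^ 7 ≤ (x : ℝ) := by
  have h2 : ∀ᶠ x : ℕ in atTop, ‖Real.log (x : ℝ)‖ ≤ 1 / 20 * ‖(x : ℝ) ^ (1 / 7 : ℝ)‖ :=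
    (tendsto_natCast_atTop_atTop (R := ℝ)).eventually
      ((isLittleO_log_rpow_atTop (r := 1 / 7) (by positivity)).bound (by positivity))
  filter_upwards [h2, eventually_ge_atTop 2] with x h4 h5
  have hx2 : (2 : ℝ) ≤ x := by exact_mod_cast h5
  have hx0 : (0 : ℝ) < x := by linarith
  have hlog : 0 < Real.log x := Real.log_pos (by linarith)
  have hz0 : 0 < (x : ℝ) ^ (1 / 7 : ℝ) := Real.rpow_pos_of_pos hx0 _
  rw [Real.norm_eq_abs, abs_of_pos hlog, Real.norm_eq_abs, abs_of_pos hz0] at h4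
  have h5 := pow_le_pow_left₀ hlog.le h4 7
  have h6 : ((x : ℝ) ^ (1 / 7 : ℝ)) ^ 7 = x := by
    rw [← Real.rpow_natCast, ← Real.rpow_mul hx0.le]
    norm_num
  rw [mul_pow, h6] at h5
  nlinarith

theorem ev3 {δ : ℝ} (hδ : 0 < δ) (hδ1 : δ < 1) : ∀ᶠ x : ℕ in atTop, ∀ T : ℕ, (T : ℝ) ≤ (1 - δ) * Real.log x →
    (QQ T : ℝ) ≤ (x : ℝ) ^ (1 - δ / 2) := by
  obtain ⟨T0, hT0⟩ := eventually_atTop.1 (Pool.Agent.Lib.MP_de5eaa_nt.Poi.log_QQ (half_pos hδ))
  have h1 : ∀ᶠ x : ℕ in atTop, Real.log ((T0.factorial : ℕ) : ℝ) / (1 - δ / 2) ≤ Real.log (x : ℝ) :=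
    (Real.tendsto_log_atTop.comp tendsto_natCast_atTop_atTop).eventually_ge_atTop _
  filter_upwards [h1, eventually_ge_atTop 2] with x h2 h3 T hT
  have hx2 : (2 : ℝ) ≤ x := by exact_mod_cast h3
  have hx0 : (0 : ℝ) < x := by linarith
  have hlog : 0 < Real.log x := Real.log_pos (by linarith)
  have hQ := Pool.Agent.Lib.MP_de5eaa_nt.Poi.P4_QQ_pos T
  have hQr : (0 : ℝ) < QQ T := by exact_mod_cast hQ
  rw [← Real.exp_log hQr, ← Real.exp_log (Real.rpow_pos_of_pos hx0 _), Real.log_rpow hx0]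
  apply Real.exp_le_exp.2
  rcases le_total T0 T with h | h
  · refine (hT0 T h).trans ?_
    have h1 : (1 + δ / 2) * (T : ℝ) ≤ (1 + δ / 2) * ((1 - δ) * Real.log x) :=
      mul_le_mul_of_nonneg_left hT (by positivity)
    have h2 : (1 + δ / 2) * ((1 - δ) * Real.log x) ≤ (1 - δ / 2) * Real.log x := by
      have : 0 ≤ δ ^ 2 / 2 * Real.log x := by positivity
      nlinarith
    linarith
  · rw [div_le_iff₀ (by linarith)] at h2
    have h4 : QQ T ≤ T0.factorial :=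
      (Nat.le_of_dvd (Nat.factorial_pos T) (Pool.Agent.Lib.MP_de5eaa_nt.Poi.P4_QQ_dvd T)).trans
        (Nat.factorial_le h)
    have h5 : Real.log (QQ T : ℝ) ≤ Real.log ((T0.factorial : ℕ) : ℝ) :=
      Real.log_le_log hQr (by exact_mod_cast h4)
    linarith

theorem moment_u {δ : ℝ} (hδ : 0 < δ) (hδ1 : δ < 1) : ∃ C : ℝ, 0 < C ∧ ∃ x1 : ℕ, ∀ x M L : ℕ, x1 ≤ x → 1 ≤ L →
    ((M + L : ℕ) : ℝ) ≤ (1 - δ) * Real.log x → ∀ (j : ℤ) (t : ℕ), ¬ (2 : ℤ) ^ (t + 1) ∣ j →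
    |(j : ℝ)| ≤ 1000 * Real.log x ^ 2 →
    ∑ p ∈ (range (x + 1)).filter Nat.Prime, ‖SS j M L p‖ ^ 2 ≤ C * 2 ^ t * L * ppi x := by
  obtain ⟨C, hC, x1, hbt⟩ := Pool.Agent.Lib.MP_de5eaa_nt.Poi.bt_mean (half_pos hδ)
  obtain ⟨x2, hx2⟩ := eventually_atTop.1 (((ev1.and ev2).and (ev3 hδ hδ1)).and
    ((Pool.Agent.Lib.MP_de5eaa_nt.Poi.log_small 0 one_pos le_rfl).and (eventually_ge_atTop x1)))
  refine ⟨16 * C + 2, by positivity, max x2 2, fun x M L hx hL hT j t hj hjx => ?_⟩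
  obtain ⟨⟨⟨g1, g2⟩, g3⟩, ⟨-, g5, -⟩, g7⟩ := hx2 x ((le_max_left _ _).trans hx)
  have h22 : 2 ≤ x := (le_max_right _ _).trans hx
  have hx2 : (2 : ℝ) ≤ x := by exact_mod_cast h22
  have hx0 : (0 : ℝ) < x := by linarith
  have hlog : 0 < Real.log x := Real.log_pos (by linarith)
  have hL1 : (1 : ℝ) ≤ L := by exact_mod_cast hL
  have hTlog : ((M + L : ℕ) : ℝ) ≤ Real.log x := by nlinarith
  have hLT : (L : ℝ) ≤ ((M + L : ℕ) : ℝ) := by
    push_cast
    have : (0 : ℝ) ≤ M := Nat.cast_nonneg _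
    linarith
  have hLlog : (L : ℝ) ≤ Real.log x := hLT.trans hTlog
  set T := M + L with hTdef
  have hQ := Pool.Agent.Lib.MP_de5eaa_nt.Poi.P4_QQ_pos T
  have hφ : (0 : ℝ) < ((QQ T).totient : ℝ) := by exact_mod_cast Nat.totient_pos.2 hQ
  set F : ℕ → ℝ := fun u => ‖∑ n ∈ Ioc M (M + L), e1 ((j : ℝ) * YY u n)‖ ^ 2 with hF
  have hF0 : ∀ u, 0 ≤ F u := fun u => sq_nonneg _
  have hmean := hbt x (QQ T) g7 hQ (g3 T hT) F (fun u _ => hF0 u)
  have hV2 : ∑ u ∈ UU (QQ T), F u ≤ 8 * 2 ^ t * L * ((QQ T).totient : ℝ) := V2_le hj M L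
  have hpt : ∀ p ∈ (range (x + 1)).filter Nat.Prime, ‖SS j M L p‖ ^ 2 ≤
      ((if p < Nat.sqrt x + 1 then (L : ℝ) ^ 2 else 0) +
        2 * ∑ u ∈ (UU (QQ T)).filter (fun u => u * p ≡ 1 [MOD QQ T]), F u) + L := by
    intro p hp
    rw [mem_filter] at hp
    have hpp := hp.2
    have hs0 : 0 ≤ ∑ u ∈ (UU (QQ T)).filter (fun u => u * p ≡ 1 [MOD QQ T]), F u :=
      Finset.sum_nonneg fun u _ => hF0 u
    by_cases h : p < Nat.sqrt x + 1
    · rw [if_pos h]
      have := SS_le j M L p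
      linarith
    · rw [if_neg h, zero_add]
      push Not at h
      have hp1 : Nat.sqrt x < p := h
      have h1 : x < p * p := Nat.sqrt_lt.1 hp1
      have hpx : (x : ℝ) < (p : ℝ) ^ 2 := by
        rw [sq]
        exact_mod_cast h1
      have hp0 : (0 : ℝ) < (p : ℝ) := by exact_mod_cast hpp.pos
      have hp2 : Real.sqrt x < p := by
        rw [Real.sqrt_lt' hp0]
        exact hpx
      have hTp : T < p := by
        have : ((T : ℕ) : ℝ) < p := by linarith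
        exact_mod_cast this
      have hcop : p.Coprime (QQ T) := by
        rw [Nat.Prime.coprime_iff_not_dvd hpp]
        intro h
        have h1 := (Nat.Prime.dvd_factorial hpp).1 (h.trans (Pool.Agent.Lib.MP_de5eaa_nt.Poi.P4_QQ_dvd T))
        omega
      obtain ⟨u, hu, hup⟩ := Pool.Agent.Lib.MP_de5eaa_nt.Poi.P4_inv hQ hcop
      have h2 := V3 hpp hTp hup j
      have h3 : F u ≤ ∑ u ∈ (UU (QQ T)).filter (fun u => u * p ≡ 1 [MOD QQ T]), F u :=
        Finset.single_le_sum (f := F) (fun u _ => hF0 u) (mem_filter.2 ⟨hu, hup⟩)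
      have h4 : 2 * ((L : ℝ) * (2 * Real.pi * (|(j : ℝ)| * (((M + L : ℕ) : ℝ) / p)))) ^ 2 ≤ L := by
        have h5 : 2 * ((L : ℝ) * (2 * Real.pi * (|(j : ℝ)| * (((M + L : ℕ) : ℝ) / p)))) ^ 2 =
            (8 * Real.pi ^ 2) * (L : ℝ) ^ 2 * |(j : ℝ)| ^ 2 * ((T : ℕ) : ℝ) ^ 2 / (p : ℝ) ^ 2 := by
          rw [← hTdef]
          field_simp
          ring
        rw [h5, div_le_iff₀ (by positivity)]
        have hpi : 8 * Real.pi ^ 2 ≤ 100 := by
          have h6 := Real.pi_lt_d2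
          have h7 := Real.pi_pos
          nlinarith
        have h6 : |(j : ℝ)| ^ 2 ≤ (1000 * Real.log x ^ 2) ^ 2 := pow_le_pow_left₀ (abs_nonneg _) hjx 2
        have h7 : ((T : ℕ) : ℝ) ^ 2 ≤ Real.log x ^ 2 := pow_le_pow_left₀ (Nat.cast_nonneg _) hTlog 2
        have h8 : (L : ℝ) ^ 2 ≤ L * Real.log x := by
          rw [sq]
          exact mul_le_mul_of_nonneg_left hLlog (by linarith)
        calc (8 * Real.pi ^ 2) * (L : ℝ) ^ 2 * |(j : ℝ)| ^ 2 * ((T : ℕ) : ℝ) ^ 2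
            ≤ 100 * (L * Real.log x) * (1000 * Real.log x ^ 2) ^ 2 * Real.log x ^ 2 := by gcongr
          _ = L * (100000000 * Real.log x ^ 7) := by ring
          _ ≤ L * x := mul_le_mul_of_nonneg_left g2 (by linarith)
          _ ≤ L * (p : ℝ) ^ 2 := mul_le_mul_of_nonneg_left hpx.le (by linarith)
      have h5 : ‖SS j M L p‖ ^ 2 ≤ 2 * F u + L := by
        refine h2.trans ?_
        exact add_le_add_right h4 _
      linarith
  refine (Finset.sum_le_sum hpt).trans ?_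
  rw [Finset.sum_add_distrib, Finset.sum_add_distrib, ← Finset.mul_sum]
  have hcard : (((range (x + 1)).filter Nat.Prime).card : ℝ) = ppi x := rfl
  have s1 : ∑ p ∈ (range (x + 1)).filter Nat.Prime, (if p < Nat.sqrt x + 1 then (L : ℝ) ^ 2 else 0) ≤ L * ppi x := by
    rw [← Finset.sum_filter, Finset.sum_const, nsmul_eq_mul]
    have h1 : ((((range (x + 1)).filter Nat.Prime).filter fun p => p < Nat.sqrt x + 1).card : ℝ) ≤
        Real.sqrt x + 1 := by
      have h2 : (((range (x + 1)).filter Nat.Prime).filter fun p => p < Nat.sqrt x + 1) ⊆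
          range (Nat.sqrt x + 1) := by
        intro p hp
        rw [mem_filter] at hp
        exact mem_range.2 hp.2
      have h3 := Finset.card_le_card h2
      rw [card_range] at h3
      have h4 : ((((range (x + 1)).filter Nat.Prime).filter fun p => p < Nat.sqrt x + 1).card : ℝ) ≤
          (Nat.sqrt x : ℝ) + 1 := by exact_mod_cast h3
      have hsq2 : (Nat.sqrt x : ℝ) ≤ Real.sqrt x := Real.nat_sqrt_le_real_sqrt
      linarith
    calc _ ≤ (Real.sqrt x + 1) * (L : ℝ) ^ 2 := mul_le_mul_of_nonneg_right h1 (sq_nonneg _)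
      _ ≤ (Real.sqrt x + 1) * (L * Real.log x) := by
        apply mul_le_mul_of_nonneg_left _ (by positivity)
        rw [sq]
        exact mul_le_mul_of_nonneg_left hLlog (by linarith)
      _ = L * (Real.log x * (Real.sqrt x + 1)) := by ring
      _ ≤ L * ppi x := mul_le_mul_of_nonneg_left g1 (by linarith)
  have s2 : ∑ p ∈ (range (x + 1)).filter Nat.Prime, ∑ u ∈ (UU (QQ T)).filter (fun u => u * p ≡ 1 [MOD QQ T]), F u ≤
      8 * C * 2 ^ t * L * ppi x := by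
    refine hmean.trans ?_
    have h1 : C * ppi x / ((QQ T).totient : ℝ) * ∑ u ∈ UU (QQ T), F u ≤
        C * ppi x / ((QQ T).totient : ℝ) * (8 * 2 ^ t * L * ((QQ T).totient : ℝ)) :=
      mul_le_mul_of_nonneg_left hV2 (by positivity)
    refine h1.trans (le_of_eq ?_)
    field_simp
  have s3 : ∑ _p ∈ (range (x + 1)).filter Nat.Prime, (L : ℝ) = L * ppi x := by
    rw [Finset.sum_const, nsmul_eq_mul, hcard, mul_comm]
  rw [s3]
  have h2t : (1 : ℝ) ≤ 2 ^ t := one_le_pow₀ (by norm_num)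
  have h9 : (L : ℝ) * ppi x ≤ 2 ^ t * (L * ppi x) := by
    have : (0 : ℝ) ≤ (L : ℝ) * ppi x := by positivity
    nlinarith
  calc _ ≤ (L * ppi x + 2 * (8 * C * 2 ^ t * L * ppi x)) + L * (ppi x : ℝ) := by linarith
    _ ≤ (16 * C + 2) * 2 ^ t * L * ppi x := by linarith

end Pool.Agent.Lib.MP_de5eaa_nt.Win
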