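import Pool.Agent.Lib.MP_de5eaa_nt.Win.V4

/-! The points of the orders in a window `(M, M + L]` modulo `lcm (M + 1, ..., M + L)`. -/

set_option autoImplicit false

namespace Pool.Agent.Lib.MP_de5eaa_nt.Win

open Finset Filter Topology
open Pool.Agent.Lib.MP_de5eaa_nt.Near (hs wq e1 SS e1_add norm_e1 e1_conj e1_int four_dvd_den close_card
  norm_e1_sub_one ppi)
open Pool.Agent.Lib.MP_de5eaa_nt.Poi (QQ UU)

/-- `lcm (M + 1, ..., M + L)` -/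
def LQ (M L : ℕ) : ℕ := (Icc (M + 1) (M + L)).lcm id

/-- the points -/
noncomputable def ZZ (M u n : ℕ) : ℝ := -((u : ℝ) * ((hs (M + 1) n : ℚ) : ℝ))

theorem LQ_dvd_fac (M L : ℕ) : LQ M L ∣ (M + L).factorial := by
  unfold LQ
  refine Finset.lcm_dvd fun i hi => ?_
  rw [mem_Icc] at hi
  exact Nat.dvd_factorial (by simp only [id]; omega) (by simp only [id]; omega)

theorem LQ_pos (M L : ℕ) : 0 < LQ M L := Nat.pos_of_dvd_of_pos (LQ_dvd_fac M L) (Nat.factorial_pos _)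

theorem LQ_dvd_QQ (M L : ℕ) : LQ M L ∣ QQ (M + L) := by
  unfold LQ QQ
  refine Finset.lcm_dvd fun i hi => ?_
  rw [mem_Icc] at hi
  exact Finset.dvd_lcm (f := id) (mem_Icc.2 ⟨by omega, by omega⟩)

theorem QQ_dvd_LQ (M L : ℕ) : QQ L ∣ LQ M L := by
  unfold QQ
  refine Finset.lcm_dvd fun q hq => ?_
  rw [mem_Icc] at hq
  have h1 : q * ((M + L) / q) + (M + L) % q = M + L := Nat.div_add_mod _ _
  have h2 : (M + L) % q < q := Nat.mod_lt _ (by omega)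
  have h3 : q * ((M + L) / q) ∈ Icc (M + 1) (M + L) := mem_Icc.2 ⟨by omega, by omega⟩
  have h4 : q * ((M + L) / q) ∣ LQ M L := by
    unfold LQ
    exact Finset.dvd_lcm (f := id) h3
  exact (Dvd.intro _ rfl).trans h4

theorem le_LQ {M L : ℕ} (hL : 1 ≤ L) : M + L ≤ LQ M L := by
  apply Nat.le_of_dvd (LQ_pos M L)
  unfold LQ
  exact Finset.dvd_lcm (f := id) (mem_Icc.2 ⟨by omega, le_rfl⟩)

theorem den_dvd_LQ {M L n m : ℕ} (hn : M < n) (hm : m ≤ M + L + 1) : (hs n m).den ∣ LQ M L := by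
  have hpos : LQ M L ≠ 0 := (LQ_pos M L).ne'
  have hq : (LQ M L : ℚ) ≠ 0 := Nat.cast_ne_zero.2 hpos
  have h1 : hs n m = ((∑ k ∈ Ico n m, ((LQ M L / k : ℕ) : ℤ) : ℤ) : ℚ) / ((LQ M L : ℤ) : ℚ) := by
    unfold hs
    push_cast
    rw [Finset.sum_div]
    refine Finset.sum_congr rfl fun k hk => ?_
    have hk1 := Finset.mem_Ico.1 hk
    have hd : k ∣ LQ M L := by
      unfold LQ
      exact Finset.dvd_lcm (f := id) (Finset.mem_Icc.2 ⟨by omega, by omega⟩)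
    have hk0 : (k : ℚ) ≠ 0 := Nat.cast_ne_zero.2 (by omega)
    have hc : (((LQ M L : ℤ) / (k : ℤ) : ℤ) : ℚ) = (LQ M L : ℚ) / (k : ℚ) := by
      rw [Int.cast_div (Int.natCast_dvd_natCast.2 hd) (by exact_mod_cast hk0)]
      push_cast
      rfl
    rw [hc]
    field_simp
  have h2 := Rat.den_dvd (∑ k ∈ Ico n m, ((LQ M L / k : ℕ) : ℤ)) (LQ M L : ℤ)
  rw [Rat.divInt_eq_div, ← h1] at h2
  exact Int.natCast_dvd_natCast.1 h2

theorem ZZ_sub {M n m : ℕ} (hn : M < n) (hnm : n ≤ m) (u : ℕ) :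
    ZZ M u m - ZZ M u n = -((u : ℝ) * ((hs n m : ℚ) : ℝ)) := by
  have h : hs (M + 1) n + hs n m = hs (M + 1) m := by
    unfold hs
    exact Finset.sum_Ico_consecutive _ hn hnm
  unfold ZZ
  rw [← h]
  push_cast
  ring

theorem W_point {p M L u n : ℕ} (hp : p.Prime) (hL : M + L < p) (hu : u * p ≡ 1 [MOD LQ M L]) (hn : M < n)
    (hnL : n ≤ M + L) :
    ∃ a : ℤ, (wq n p : ℝ) / p = (wq (M + 1) p : ℝ) / p + ((hs (M + 1) n : ℚ) : ℝ) / p + ZZ M u n + a := by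
  have h1 := Pool.Agent.Lib.MP_de5eaa_nt.Near.wq_rat hp (show 1 ≤ M + 1 by omega) hn (by omega : n ≤ p) 1
  rw [Int.cast_one, one_mul, one_mul] at h1
  obtain ⟨v, hv⟩ := h1
  have hB : (hs (M + 1) n).den ∣ LQ M L := den_dvd_LQ (Nat.lt_succ_self M) (by omega)
  have h2 : ((hs (M + 1) n).den : ℤ) ∣ (u : ℤ) * p - 1 := by
    have h3 : u * p ≡ 1 [MOD (hs (M + 1) n).den] := hu.of_dvd hB
    have h4 := (Nat.modEq_iff_dvd.1 h3.symm)
    push_cast at h4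
    exact h4
  obtain ⟨w, hw⟩ := h2
  set W : ℤ := wq n p - wq (M + 1) p with hW
  refine ⟨u * W - w * v, ?_⟩
  have hp0 : (p : ℝ) ≠ 0 := Nat.cast_ne_zero.2 hp.ne_zero
  have hB0 : ((hs (M + 1) n).den : ℝ) ≠ 0 := Nat.cast_ne_zero.2 (hs (M + 1) n).den_nz
  have hs1 : ((hs (M + 1) n : ℚ) : ℝ) = ((hs (M + 1) n).num : ℝ) / ((hs (M + 1) n).den : ℝ) := Rat.cast_def _
  have hvR : (W : ℝ) * ((hs (M + 1) n).den : ℝ) - ((hs (M + 1) n).num : ℝ) = p * v := by exact_mod_cast hv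
  have hwR : (u : ℝ) * p - 1 = ((hs (M + 1) n).den : ℝ) * w := by exact_mod_cast hw
  have hWR : (W : ℝ) = (wq n p : ℝ) - (wq (M + 1) p : ℝ) := by rw [hW]; push_cast; ring
  unfold ZZ
  rw [hs1]
  push_cast
  have hnum : ((hs (M + 1) n).num : ℝ) = (W : ℝ) * ((hs (M + 1) n).den : ℝ) - p * v := by linarith
  rw [hnum]
  have hwq : (wq n p : ℝ) = (wq (M + 1) p : ℝ) + W := by rw [hWR]; ring
  rw [hwq]
  field_simp
  linear_combination (-(p : ℝ) * v) * hwR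

theorem hs_nonneg' (M n : ℕ) : (0 : ℚ) ≤ hs (M + 1) n := by
  unfold hs
  exact Finset.sum_nonneg fun k _ => by positivity

theorem hs_le' {M L n : ℕ} (h : n ≤ M + L) : hs (M + 1) n ≤ (L : ℚ) := by
  unfold hs
  calc ∑ k ∈ Ico (M + 1) n, 1 / (k : ℚ) ≤ ∑ _k ∈ Ico (M + 1) n, (1 : ℚ) := by
        refine Finset.sum_le_sum fun k hk => ?_
        have h1 : 1 ≤ k := by
          have := (Finset.mem_Ico.1 hk).1
          omega
        have h2 : (1 : ℚ) ≤ k := by exact_mod_cast h1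
        rw [div_le_one (by linarith)]
        exact h2
    _ = ((n - (M + 1) : ℕ) : ℚ) := by simp
    _ ≤ (L : ℚ) := by
      exact_mod_cast (by omega : n - (M + 1) ≤ L)

theorem W2_far {M L n m t : ℕ} {j : ℤ} (hj : ¬ (2 : ℤ) ^ (t + 1) ∣ j) (hn : M < n) (hm : m ≤ M + L)
    (h : n + 2 ^ (t + 2) ≤ m) :
    ∑ u ∈ UU (LQ M L), Real.cos (2 * Real.pi * ((j : ℝ) * ZZ M u n - (j : ℝ) * ZZ M u m)) = 0 := by
  have hd : ((j : ℚ) * hs n m).den ∣ LQ M L := by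
    have h1 := Rat.mul_den_dvd (j : ℚ) (hs n m)
    rw [Rat.den_intCast, one_mul] at h1
    exact h1.trans (den_dvd_LQ hn (by omega))
  have h1 := V1_sum (LQ_pos M L) hd (four_dvd_den (by omega) h hj)
  rw [← h1]
  refine Finset.sum_congr rfl fun u _ => ?_
  have h2 := ZZ_sub hn ((Nat.le_add_right _ _).trans h) u
  congr 1
  rw [← mul_sub, show ZZ M u n - ZZ M u m = -(ZZ M u m - ZZ M u n) by ring, h2]
  push_cast
  ring

theorem W2_le {t : ℕ} {j : ℤ} (hj : ¬ (2 : ℤ) ^ (t + 1) ∣ j) (M L : ℕ) :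
    ∑ u ∈ UU (LQ M L), ‖∑ n ∈ Ioc M (M + L), e1 ((j : ℝ) * ZZ M u n)‖ ^ 2 ≤
      8 * 2 ^ t * L * ((LQ M L).totient : ℝ) := by
  set I := Ioc M (M + L) with hI
  set d := 2 ^ (t + 2) with hd
  have hd1 : 1 ≤ d := Nat.one_le_two_pow
  have e : ∑ u ∈ UU (LQ M L), ‖∑ n ∈ I, e1 ((j : ℝ) * ZZ M u n)‖ ^ 2 =
      ∑ n ∈ I, ∑ m ∈ I, ∑ u ∈ UU (LQ M L),
        Real.cos (2 * Real.pi * ((j : ℝ) * ZZ M u n - (j : ℝ) * ZZ M u m)) := by
    rw [Finset.sum_congr rfl fun u _ => norm_sq_cos I (fun n => (j : ℝ) * ZZ M u n), Finset.sum_comm]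
    refine Finset.sum_congr rfl fun n _ => ?_
    rw [Finset.sum_comm]
  rw [e]
  have h1 : ∀ n ∈ I, ∑ m ∈ I, ∑ u ∈ UU (LQ M L),
      Real.cos (2 * Real.pi * ((j : ℝ) * ZZ M u n - (j : ℝ) * ZZ M u m)) ≤
      8 * 2 ^ t * ((LQ M L).totient : ℝ) := by
    intro n hn
    rw [hI, mem_Ioc] at hn
    have h2 : ∀ m ∈ I, ∑ u ∈ UU (LQ M L),
        Real.cos (2 * Real.pi * ((j : ℝ) * ZZ M u n - (j : ℝ) * ZZ M u m)) ≤
        if ¬ (n + d ≤ m ∨ m + d ≤ n) then ((LQ M L).totient : ℝ) else 0 := by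
      intro m hm
      rw [hI, mem_Ioc] at hm
      by_cases h : n + d ≤ m ∨ m + d ≤ n
      · rw [if_neg (not_not.2 h)]
        rcases h with h | h
        · exact (W2_far hj hn.1 hm.2 h).le
        · refine le_of_eq ?_
          rw [← W2_far (M := M) (L := L) (n := m) (m := n) hj hm.1 hn.2 h]
          refine Finset.sum_congr rfl fun u _ => ?_
          rw [← Real.cos_neg]
          congr 1
          ring
      · rw [if_pos h]
        refine (Finset.sum_le_sum fun u _ => Real.cos_le_one _).trans (le_of_eq ?_)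
        rw [Finset.sum_const, Pool.Agent.Lib.MP_de5eaa_nt.Poi.card_UU, nsmul_eq_mul, mul_one]
    refine (Finset.sum_le_sum h2).trans ?_
    rw [← Finset.sum_filter, Finset.sum_const, nsmul_eq_mul]
    apply mul_le_mul_of_nonneg_right _ (Nat.cast_nonneg _)
    have h3 : ((I.filter fun m => ¬ (n + d ≤ m ∨ m + d ≤ n)).card : ℝ) ≤ ((2 * d : ℕ) : ℝ) := by
      exact_mod_cast close_card M L d n hd1
    refine h3.trans (le_of_eq ?_)
    rw [hd]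
    push_cast
    rw [pow_add]
    ring
  refine (Finset.sum_le_sum h1).trans (le_of_eq ?_)
  rw [Finset.sum_const, hI, Nat.card_Ioc, Nat.add_sub_cancel_left, nsmul_eq_mul]
  ring

theorem W3 {p M L u : ℕ} (hp : p.Prime) (hT : M + L < p) (hu : u * p ≡ 1 [MOD LQ M L]) (j : ℤ) :
    ‖SS j M L p‖ ^ 2 ≤ 2 * ‖∑ n ∈ Ioc M (M + L), e1 ((j : ℝ) * ZZ M u n)‖ ^ 2 +
      2 * ((L : ℝ) * (2 * Real.pi * (|(j : ℝ)| * ((L : ℝ) / p)))) ^ 2 := by
  set I := Ioc M (M + L) with hI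
  have hp0 : (0 : ℝ) < p := by exact_mod_cast hp.pos
  have hpt : ∀ n ∈ I, e1 ((j : ℝ) * wq n p / p) =
      e1 ((j : ℝ) * ((wq (M + 1) p : ℝ) / p)) *
        (e1 ((j : ℝ) * ZZ M u n) * e1 ((j : ℝ) * (((hs (M + 1) n : ℚ) : ℝ) / p))) := by
    intro n hn
    rw [hI, mem_Ioc] at hn
    obtain ⟨a, ha⟩ := W_point hp hT hu hn.1 hn.2
    rw [mul_div_assoc, ha, ← e1_add, ← e1_add]
    have h1 : (j : ℝ) * ((wq (M + 1) p : ℝ) / p + ((hs (M + 1) n : ℚ) : ℝ) / p + ZZ M u n + a) =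
        ((j : ℝ) * ((wq (M + 1) p : ℝ) / p) +
          ((j : ℝ) * ZZ M u n + (j : ℝ) * (((hs (M + 1) n : ℚ) : ℝ) / p))) + (((j * a : ℤ)) : ℝ) := by
      push_cast
      ring
    rw [h1, e1_add _ (((j * a : ℤ)) : ℝ), e1_int, mul_one]
  have h2 : SS j M L p = e1 ((j : ℝ) * ((wq (M + 1) p : ℝ) / p)) *
      ∑ n ∈ I, (e1 ((j : ℝ) * ZZ M u n) * e1 ((j : ℝ) * (((hs (M + 1) n : ℚ) : ℝ) / p))) := by
    unfold SS
    rw [Finset.mul_sum]
    exact Finset.sum_congr rfl hpt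
  have h3 : ‖SS j M L p‖ ≤ ‖∑ n ∈ I, e1 ((j : ℝ) * ZZ M u n)‖ +
      (L : ℝ) * (2 * Real.pi * (|(j : ℝ)| * ((L : ℝ) / p))) := by
    rw [h2, norm_mul, norm_e1, one_mul]
    have e : ∑ n ∈ I, (e1 ((j : ℝ) * ZZ M u n) * e1 ((j : ℝ) * (((hs (M + 1) n : ℚ) : ℝ) / p))) =
        (∑ n ∈ I, e1 ((j : ℝ) * ZZ M u n)) +
          ∑ n ∈ I, (e1 ((j : ℝ) * ZZ M u n) * (e1 ((j : ℝ) * (((hs (M + 1) n : ℚ) : ℝ) / p)) - 1)) := by
      rw [← Finset.sum_add_distrib]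
      refine Finset.sum_congr rfl fun n _ => ?_
      ring
    rw [e]
    refine (norm_add_le _ _).trans (add_le_add_right ?_ _)
    refine (norm_sum_le _ _).trans ?_
    have h4 : ∀ n ∈ I, ‖e1 ((j : ℝ) * ZZ M u n) * (e1 ((j : ℝ) * (((hs (M + 1) n : ℚ) : ℝ) / p)) - 1)‖ ≤
        2 * Real.pi * (|(j : ℝ)| * ((L : ℝ) / p)) := by
      intro n hn
      rw [hI, mem_Ioc] at hn
      rw [norm_mul, norm_e1, one_mul]
      refine (norm_e1_sub_one _).trans ?_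
      have h5 : (0 : ℝ) ≤ ((hs (M + 1) n : ℚ) : ℝ) := by exact_mod_cast hs_nonneg' M n
      have h6 : ((hs (M + 1) n : ℚ) : ℝ) ≤ (L : ℝ) := by exact_mod_cast hs_le' hn.2
      rw [abs_mul, abs_of_nonneg (div_nonneg h5 hp0.le)]
      have hpi := Real.pi_pos
      gcongr
    refine (Finset.sum_le_sum h4).trans (le_of_eq ?_)
    rw [Finset.sum_const, hI, Nat.card_Ioc, Nat.add_sub_cancel_left, nsmul_eq_mul]
  have h4 : 0 ≤ ‖SS j M L p‖ := norm_nonneg _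
  have h5 := pow_le_pow_left₀ h4 h3 2
  refine h5.trans ?_
  set a := ‖∑ n ∈ I, e1 ((j : ℝ) * ZZ M u n)‖
  set b := (L : ℝ) * (2 * Real.pi * (|(j : ℝ)| * ((L : ℝ) / p)))
  nlinarith [sq_nonneg (a - b)]

end Pool.Agent.Lib.MP_de5eaa_nt.Win
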