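import Pool.Agent.Lib.MP_de5eaa_nt.Win.W1

/-! The second moment over the primes, for windows with `lcm (M + 1, ..., M + L) ≤ x ^ (1 - δ)`. -/

set_option autoImplicit false

namespace Pool.Agent.Lib.MP_de5eaa_nt.Win

open Finset Filter Topology
open Pool.Agent.Lib.MP_de5eaa_nt.Near (hs wq e1 SS ppi)
open Pool.Agent.Lib.MP_de5eaa_nt.Poi (QQ UU)

theorem wv1 {η : ℝ} (hη : 0 < η) (hη1 : η < 1) : ∀ᶠ x : ℕ in atTop,
    2 * Real.log x * ((x : ℝ) ^ (1 - η) + 1) ≤ ppi x := by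
  have h1 : ∀ᶠ x : ℕ in atTop, (1 / 2 : ℝ) < (ppi x : ℝ) * Real.log x / (x : ℝ) :=
    Pool.Agent.Lib.MP_de5eaa_nt.Near.ppi_tendsto.eventually (lt_mem_nhds (by norm_num))
  have h2 : ∀ᶠ x : ℕ in atTop, ‖Real.log (x : ℝ)‖ ≤ 1 / 4 * ‖(x : ℝ) ^ (η / 2)‖ :=
    (tendsto_natCast_atTop_atTop (R := ℝ)).eventually
      ((isLittleO_log_rpow_atTop (r := η / 2) (by positivity)).bound (by positivity))
  filter_upwards [h1, h2, eventually_ge_atTop 2] with x h3 h4 h5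
  have hx2 : (2 : ℝ) ≤ x := by exact_mod_cast h5
  have hx0 : (0 : ℝ) < x := by linarith
  have hlog : 0 < Real.log x := Real.log_pos (by linarith)
  have hz0 : 0 < (x : ℝ) ^ (η / 2) := Real.rpow_pos_of_pos hx0 _
  rw [Real.norm_eq_abs, abs_of_pos hlog, Real.norm_eq_abs, abs_of_pos hz0] at h4
  set z := (x : ℝ) ^ (η / 2) with hz
  set w := (x : ℝ) ^ (1 - η) with hw
  have hw1 : 1 ≤ w := Real.one_le_rpow (by linarith) (by linarith)
  have hzz : z * z * w = x := by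
    rw [hz, hw, ← Real.rpow_add hx0, ← Real.rpow_add hx0]
    rw [show η / 2 + η / 2 + (1 - η) = 1 by ring, Real.rpow_one]
  rw [lt_div_iff₀ hx0] at h3
  have h7 : 2 * Real.log x * (w + 1) * Real.log x ≤ ppi x * Real.log x := by
    have h9 : Real.log x * Real.log x ≤ (1 / 4 * z) * (1 / 4 * z) := mul_le_mul h4 h4 hlog.le (by positivity)
    have h11 : (Real.log x * Real.log x) * (w + 1) ≤ ((1 / 4 * z) * (1 / 4 * z)) * (2 * w) :=
      mul_le_mul h9 (by linarith) (by positivity) (by positivity)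
    have h12 : ((1 / 4 * z) * (1 / 4 * z)) * (2 * w) = 1 / 8 * (z * z * w) := by ring
    rw [h12, hzz] at h11
    calc 2 * Real.log x * (w + 1) * Real.log x = 2 * ((Real.log x * Real.log x) * (w + 1)) := by ring
      _ ≤ 2 * (1 / 8 * x) := by linarith
      _ ≤ 1 / 2 * x := by linarith
      _ ≤ _ := h3.le
  exact le_of_mul_le_mul_right h7 hlog

theorem wv2 : ∀ᶠ x : ℕ in atTop, 12800000000 * Real.log x ^ 7 ≤ (x : ℝ) := by
  have h2 : ∀ᶠ x : ℕ in atTop, ‖Real.log (x : ℝ)‖ ≤ 1 / 40 * ‖(x : ℝ) ^ (1 / 7 : ℝ)‖ :=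
    (tendsto_natCast_atTop_atTop (R := ℝ)).eventually
      ((isLittleO_log_rpow_atTop (r := 1 / 7) (by positivity)).bound (by positivity))
  filter_upwards [h2, eventually_ge_atTop 2] with x h4 h5
  have hx2 : (2 : ℝ) ≤ x := by exact_mod_cast h5
  have hx0 : (0 : ℝ) < x := by linarith
  have hlog : 0 < Real.log x := Real.log_pos (by linarith)
  have hz0 : 0 < (x : ℝ) ^ (1 / 7 : ℝ) := Real.rpow_pos_of_pos hx0 _
  rw [Real.norm_eq_abs, abs_of_pos hlog, Real.norm_eq_abs, abs_of_pos hz0] at h4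
  have h5 := pow_le_pow_left₀ hlog.le h4 7
  have h6 : ((x : ℝ) ^ (1 / 7 : ℝ)) ^ 7 = x := by
    rw [← Real.rpow_natCast, ← Real.rpow_mul hx0.le]
    norm_num
  rw [mul_pow, h6] at h5
  nlinarith

/-- the condition on the window -/
def Cond (δ : ℝ) (M L x : ℕ) : Prop :=
  (((Icc (M + 1) (M + L)).lcm id : ℕ) : ℝ) ≤ (x : ℝ) ^ (1 - δ) ∨ ((M + L : ℕ) : ℝ) ≤ (1 - δ) * Real.log x

/-- `lcm (1, ..., L)` is at least `exp (L / 2)` for large `L` -/
theorem QQ_ge : ∀ᶠ L : ℕ in atTop, (L : ℝ) / 2 ≤ Real.log (QQ L : ℝ) := by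
  have e : ∀ L : ℕ, Real.log (QQ L : ℝ) = Chebyshev.psi L := fun L => (Chebyshev.psi_eq_log_lcmUpto L).symm
  have h1 : ∀ᶠ L : ℕ in atTop, (1 / 2 : ℝ) < Chebyshev.theta L / (L : ℝ) :=
    Pool.Agent.Lib.MP_de5eaa_nt.Poi.theta_tendsto.eventually (lt_mem_nhds (by norm_num))
  filter_upwards [h1, eventually_gt_atTop 0] with L h2 h3
  have hL : (0 : ℝ) < L := by exact_mod_cast h3
  rw [lt_div_iff₀ hL] at h2
  rw [e]
  have h4 := Chebyshev.theta_le_psi (L : ℝ)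
  linarith

theorem wv3 {δ : ℝ} (hδ : 0 < δ) (hδ1 : δ < 1) : ∀ᶠ x : ℕ in atTop, ∀ M L : ℕ, 1 ≤ L → Cond δ M L x →
    (LQ M L : ℝ) ≤ (x : ℝ) ^ (1 - δ / 2) ∧ (L : ℝ) ≤ 2 * Real.log x := by
  obtain ⟨L0, hL0⟩ := eventually_atTop.1 QQ_ge
  have h1 : ∀ᶠ x : ℕ in atTop, (L0 : ℝ) ≤ Real.log (x : ℝ) :=
    (Real.tendsto_log_atTop.comp tendsto_natCast_atTop_atTop).eventually_ge_atTop _
  filter_upwards [h1, ev3 hδ hδ1, eventually_ge_atTop 2] with x h2 h3 h4 M L hL hC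
  have hx2 : (2 : ℝ) ≤ x := by exact_mod_cast h4
  have hx0 : (0 : ℝ) < x := by linarith
  have hlog : 0 < Real.log x := Real.log_pos (by linarith)
  have hQr : (0 : ℝ) < LQ M L := by exact_mod_cast LQ_pos M L
  have hmain : (LQ M L : ℝ) ≤ (x : ℝ) ^ (1 - δ / 2) := by
    rcases hC with h | h
    · refine (le_trans (le_of_eq rfl) h).trans ?_
      exact Real.rpow_le_rpow_of_exponent_le (by linarith) (by linarith)
    · refine le_trans ?_ (h3 (M + L) h)
      exact_mod_cast Nat.le_of_dvd (Pool.Agent.Lib.MP_de5eaa_nt.Poi.P4_QQ_pos _) (LQ_dvd_QQ M L)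
  refine ⟨hmain, ?_⟩
  rcases le_total L0 L with h | h
  · have h5 := hL0 L h
    have h6 : Real.log (QQ L : ℝ) ≤ Real.log (LQ M L : ℝ) := by
      apply Real.log_le_log
      · exact_mod_cast Pool.Agent.Lib.MP_de5eaa_nt.Poi.P4_QQ_pos L
      · exact_mod_cast Nat.le_of_dvd (LQ_pos M L) (QQ_dvd_LQ M L)
    have h7 : Real.log (LQ M L : ℝ) ≤ (1 - δ / 2) * Real.log x := by
      rw [← Real.log_rpow hx0]
      exact Real.log_le_log hQr hmain
    have h8 : (1 - δ / 2) * Real.log x ≤ Real.log x := by nlinarith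
    linarith
  · have h5 : (L : ℝ) ≤ L0 := by exact_mod_cast h
    linarith

theorem moment_w {δ : ℝ} (hδ : 0 < δ) (hδ1 : δ < 1) : ∃ C : ℝ, 0 < C ∧ ∃ x1 : ℕ, ∀ x M L : ℕ, x1 ≤ x → 1 ≤ L →
    Cond δ M L x → (L : ℝ) ≤ 2 * Real.log x ∧ ∀ (j : ℤ) (t : ℕ), ¬ (2 : ℤ) ^ (t + 1) ∣ j →
    |(j : ℝ)| ≤ 4000 * Real.log x ^ 2 →
    ∑ p ∈ (range (x + 1)).filter Nat.Prime, ‖SS j M L p‖ ^ 2 ≤ C * 2 ^ t * L * ppi x := by
  obtain ⟨C, hC, x1, hbt⟩ := Pool.Agent.Lib.MP_de5eaa_nt.Poi.bt_mean (half_pos hδ)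
  obtain ⟨x2, hx2⟩ := eventually_atTop.1 (((wv1 (half_pos hδ) (by linarith)).and wv2).and
    ((wv3 hδ hδ1).and (eventually_ge_atTop x1)))
  refine ⟨16 * C + 2, by positivity, max x2 2, fun x M L hx hL hT => ?_⟩
  obtain ⟨⟨g1, g2⟩, g3, g7⟩ := hx2 x ((le_max_left _ _).trans hx)
  obtain ⟨hQx, hLlog⟩ := g3 M L hL hT
  refine ⟨hLlog, fun j t hj hjx => ?_⟩
  have h22 : 2 ≤ x := (le_max_right _ _).trans hx
  have hx2 : (2 : ℝ) ≤ x := by exact_mod_cast h22
  have hx0 : (0 : ℝ) < x := by linarith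
  have hlog : 0 < Real.log x := Real.log_pos (by linarith)
  have hL1 : (1 : ℝ) ≤ L := by exact_mod_cast hL
  set z := (x : ℝ) ^ (1 - δ / 2) with hz
  have hz1 : 1 ≤ z := Real.one_le_rpow (by linarith) (by linarith)
  have hzx : (x : ℝ) ≤ z ^ 2 := by
    rw [hz, ← Real.rpow_natCast, ← Real.rpow_mul hx0.le]
    calc (x : ℝ) = (x : ℝ) ^ (1 : ℝ) := (Real.rpow_one _).symm
      _ ≤ _ := by
        apply Real.rpow_le_rpow_of_exponent_le (by linarith)
        push_cast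
        linarith
  have hMLz : ((M + L : ℕ) : ℝ) ≤ z := by
    refine le_trans ?_ hQx
    exact_mod_cast le_LQ hL
  have hQ := LQ_pos M L
  have hφ : (0 : ℝ) < ((LQ M L).totient : ℝ) := by exact_mod_cast Nat.totient_pos.2 hQ
  set F : ℕ → ℝ := fun u => ‖∑ n ∈ Ioc M (M + L), e1 ((j : ℝ) * ZZ M u n)‖ ^ 2 with hF
  have hF0 : ∀ u, 0 ≤ F u := fun u => sq_nonneg _
  have hmean := hbt x (LQ M L) g7 hQ hQx F (fun u _ => hF0 u)
  have hV2 : ∑ u ∈ UU (LQ M L), F u ≤ 8 * 2 ^ t * L * ((LQ M L).totient : ℝ) := W2_le hj M L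
  have hpt : ∀ p ∈ (range (x + 1)).filter Nat.Prime, ‖SS j M L p‖ ^ 2 ≤
      ((if (p : ℝ) ≤ z then (L : ℝ) ^ 2 else 0) +
        2 * ∑ u ∈ (UU (LQ M L)).filter (fun u => u * p ≡ 1 [MOD LQ M L]), F u) + L := by
    intro p hp
    rw [mem_filter] at hp
    have hpp := hp.2
    have hs0 : 0 ≤ ∑ u ∈ (UU (LQ M L)).filter (fun u => u * p ≡ 1 [MOD LQ M L]), F u :=
      Finset.sum_nonneg fun u _ => hF0 u
    by_cases h : (p : ℝ) ≤ z
    · rw [if_pos h]
      have := SS_le j M L p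
      linarith
    · rw [if_neg h, zero_add]
      push Not at h
      have hp0 : (0 : ℝ) < (p : ℝ) := by exact_mod_cast hpp.pos
      have hpx : (x : ℝ) < (p : ℝ) ^ 2 := by
        have : z ^ 2 < (p : ℝ) ^ 2 := pow_lt_pow_left₀ h (by linarith) (by norm_num)
        linarith
      have hTp : M + L < p := by
        have : ((M + L : ℕ) : ℝ) < p := by linarith
        exact_mod_cast this
      have hcop : p.Coprime (LQ M L) := by
        rw [Nat.Prime.coprime_iff_not_dvd hpp]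
        intro h
        have h1 := (Nat.Prime.dvd_factorial hpp).1 (h.trans (LQ_dvd_fac M L))
        omega
      obtain ⟨u, hu, hup⟩ := Pool.Agent.Lib.MP_de5eaa_nt.Poi.P4_inv hQ hcop
      have h2 := W3 hpp hTp hup j
      have h3 : F u ≤ ∑ u ∈ (UU (LQ M L)).filter (fun u => u * p ≡ 1 [MOD LQ M L]), F u :=
        Finset.single_le_sum (f := F) (fun u _ => hF0 u) (mem_filter.2 ⟨hu, hup⟩)
      have h4 : 2 * ((L : ℝ) * (2 * Real.pi * (|(j : ℝ)| * ((L : ℝ) / p)))) ^ 2 ≤ L := by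
        have h5 : 2 * ((L : ℝ) * (2 * Real.pi * (|(j : ℝ)| * ((L : ℝ) / p)))) ^ 2 =
            (8 * Real.pi ^ 2) * (L : ℝ) ^ 2 * |(j : ℝ)| ^ 2 * (L : ℝ) ^ 2 / (p : ℝ) ^ 2 := by
          field_simp
          ring
        rw [h5, div_le_iff₀ (by positivity)]
        have hpi : 8 * Real.pi ^ 2 ≤ 100 := by
          have h6 := Real.pi_lt_d2
          have h7 := Real.pi_pos
          nlinarith
        have h6 : |(j : ℝ)| ^ 2 ≤ (4000 * Real.log x ^ 2) ^ 2 := pow_le_pow_left₀ (abs_nonneg _) hjx 2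
        have h7 : (L : ℝ) ^ 2 ≤ (2 * Real.log x) ^ 2 := pow_le_pow_left₀ (Nat.cast_nonneg _) hLlog 2
        have h8 : (L : ℝ) ^ 2 ≤ L * (2 * Real.log x) := by
          rw [sq]
          exact mul_le_mul_of_nonneg_left hLlog (by linarith)
        have hL2 : (0 : ℝ) ≤ (L : ℝ) ^ 2 := sq_nonneg _
        calc (8 * Real.pi ^ 2) * (L : ℝ) ^ 2 * |(j : ℝ)| ^ 2 * (L : ℝ) ^ 2
            ≤ 100 * (L * (2 * Real.log x)) * (4000 * Real.log x ^ 2) ^ 2 * (2 * Real.log x) ^ 2 := by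
              apply mul_le_mul _ h7 hL2 (by positivity)
              apply mul_le_mul _ h6 (by positivity) (by positivity)
              exact mul_le_mul hpi h8 hL2 (by norm_num)
          _ = L * (12800000000 * Real.log x ^ 7) := by ring
          _ ≤ L * x := mul_le_mul_of_nonneg_left g2 (by linarith)
          _ ≤ L * (p : ℝ) ^ 2 := mul_le_mul_of_nonneg_left hpx.le (by linarith)
      have h5 : ‖SS j M L p‖ ^ 2 ≤ 2 * F u + L := by
        refine h2.trans ?_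
        exact add_le_add_right h4 _
      linarith
  refine (Finset.sum_le_sum hpt).trans ?_
  rw [Finset.sum_add_distrib, Finset.sum_add_distrib, ← Finset.mul_sum]
  have hcard : (((range (x + 1)).filter Nat.Prime).card : ℝ) = ppi x := rfl
  have s1 : ∑ p ∈ (range (x + 1)).filter Nat.Prime, (if (p : ℝ) ≤ z then (L : ℝ) ^ 2 else 0) ≤ L * ppi x := by
    rw [← Finset.sum_filter, Finset.sum_const, nsmul_eq_mul]
    have h1 : ((((range (x + 1)).filter Nat.Prime).filter fun p : ℕ => (p : ℝ) ≤ z).card : ℝ) ≤ z + 1 := by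
      have h2 : (((range (x + 1)).filter Nat.Prime).filter fun p : ℕ => (p : ℝ) ≤ z) ⊆
          range (⌊z⌋₊ + 1) := by
        intro p hp
        rw [mem_filter] at hp
        rw [mem_range, Nat.lt_succ_iff]
        exact Nat.le_floor hp.2
      have h3 := Finset.card_le_card h2
      rw [card_range] at h3
      have h4 : ((((range (x + 1)).filter Nat.Prime).filter fun p : ℕ => (p : ℝ) ≤ z).card : ℝ) ≤
          (⌊z⌋₊ : ℝ) + 1 := by exact_mod_cast h3
      have h5 : (⌊z⌋₊ : ℝ) ≤ z := Nat.floor_le (by linarith)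
      linarith
    calc _ ≤ (z + 1) * (L : ℝ) ^ 2 := mul_le_mul_of_nonneg_right h1 (sq_nonneg _)
      _ ≤ (z + 1) * (L * (2 * Real.log x)) := by
        apply mul_le_mul_of_nonneg_left _ (by linarith)
        rw [sq]
        exact mul_le_mul_of_nonneg_left hLlog (by linarith)
      _ = L * (2 * Real.log x * (z + 1)) := by ring
      _ ≤ L * ppi x := mul_le_mul_of_nonneg_left g1 (by linarith)
  have s2 : ∑ p ∈ (range (x + 1)).filter Nat.Prime, ∑ u ∈ (UU (LQ M L)).filter (fun u => u * p ≡ 1 [MOD LQ M L]), F u ≤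
      8 * C * 2 ^ t * L * ppi x := by
    refine hmean.trans ?_
    have h1 : C * ppi x / ((LQ M L).totient : ℝ) * ∑ u ∈ UU (LQ M L), F u ≤
        C * ppi x / ((LQ M L).totient : ℝ) * (8 * 2 ^ t * L * ((LQ M L).totient : ℝ)) :=
      mul_le_mul_of_nonneg_left hV2 (by positivity)
    refine h1.trans (le_of_eq ?_)
    field_simp
  have s3 : ∑ _p ∈ (range (x + 1)).filter Nat.Prime, (L : ℝ) = L * ppi x := by
    rw [Finset.sum_const, nsmul_eq_mul, hcard, mul_comm]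
  rw [s3]
  have h2t : (1 : ℝ) ≤ 2 ^ t := one_le_pow₀ (by norm_num)
  have h9 : (L : ℝ) * ppi x ≤ 2 ^ t * (L * ppi x) := by
    have : (0 : ℝ) ≤ (L : ℝ) * ppi x := by positivity
    nlinarith
  calc _ ≤ (L * ppi x + 2 * (8 * C * 2 ^ t * L * ppi x)) + L * (ppi x : ℝ) := by linarith
    _ ≤ (16 * C + 2) * 2 ^ t * L * ppi x := by linarith

end Pool.Agent.Lib.MP_de5eaa_nt.Win
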