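import Pool.Agent.Lib.MP_de5eaa_nt.Win.W2

/-! The exceptional primes, uniformly in the window. -/

set_option autoImplicit false

namespace Pool.Agent.Lib.MP_de5eaa_nt.Win

open Finset Filter Topology
open Pool.Agent.Lib.MP_de5eaa_nt.Near

open Classical in
/-- The number of the exceptional primes. -/
theorem exc_count {δ : ℝ} (hδ : 0 < δ) (hδ1 : δ < 1) : ∃ C : ℝ, 0 < C ∧ ∃ x1 : ℕ, ∀ x M L : ℕ, x1 ≤ x → 1 ≤ L →
    Cond δ M L x → (L : ℝ) ≤ 2 * Real.log x ∧ ∀ R : ℕ, 2 ≤ R → ((R ^ 3 : ℕ) : ℝ) ≤ 4000 * Real.log x ^ 2 →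
    (((range (x + 1)).filter fun p => p.Prime ∧
      ww (R ^ 3) (R ^ 3) * (L / R) < EE (R ^ 3) (Ioc M (M + L)) (yy p)).card : ℝ) ≤
      C * (9 * (R : ℝ) ^ 2 * ((harmonic (R ^ 3) : ℚ) : ℝ) ^ 2 * ((Nat.log 2 (R ^ 3) : ℕ) + 1)) / L * ppi x := by
  obtain ⟨C, hC, x1, hmom⟩ := moment_w hδ hδ1
  refine ⟨C, hC, x1, fun x M L hx hL hT => ?_⟩
  obtain ⟨hLlog, hmom'⟩ := hmom x M L hx hL hT
  refine ⟨hLlog, fun R hR hRx => ?_⟩
  set K := R ^ 3 with hK
  have hRp : (0 : ℝ) < R := by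
    have : 0 < R := by omega
    exact_mod_cast this
  have hLp : (0 : ℝ) < L := by
    have : 0 < L := by omega
    exact_mod_cast this
  set W := ww K K with hW
  have hWp : 0 < W := ww_mid_pos hR
  set H := ((harmonic K : ℚ) : ℝ) with hH
  have hH0 : 0 ≤ H := by
    rw [hH, ← cc_sum]
    exact Finset.sum_nonneg fun k _ => cc_nonneg _ _
  set s := (range (2 * K + 1)).erase K with hs
  set g : ℕ → ℝ := fun i => (2 : ℝ) ^ padicValNat 2 i with hg
  set A := (range (x + 1)).filter Nat.Prime with hA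
  have h1 : ∀ k ∈ s, ∑ p ∈ A, ‖SS ((k : ℤ) - (K : ℕ)) M L p‖ ^ 2 ≤
      C * g (((K : ℕ) : ℤ) - (k : ℤ)).natAbs * L * ppi x := by
    intro k hk
    rw [hs, mem_erase, mem_range] at hk
    have hne : ((k : ℤ) - (K : ℕ) : ℤ) ≠ 0 := by
      have := hk.1
      omega
    have e : ((k : ℤ) - (K : ℕ) : ℤ).natAbs = (((K : ℕ) : ℤ) - (k : ℤ)).natAbs := by omega
    have h3 : |(((k : ℤ) - (K : ℕ) : ℤ) : ℝ)| ≤ 4000 * Real.log x ^ 2 := by
      refine le_trans ?_ hRx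
      have h4 : |((k : ℤ) - (K : ℕ) : ℤ)| ≤ (K : ℤ) := by
        rw [abs_le]
        constructor <;> omega
      exact_mod_cast h4
    have h2 := hmom' ((k : ℤ) - (K : ℕ)) _ (not_dvd_int hne) h3
    rw [e] at h2
    exact h2
  set P := (range (x + 1)).filter (fun p => p.Prime ∧ W * (L / R) < EE K (Ioc M (M + L)) (yy p)) with hP
  have h2 : (W * (L / R)) ^ 2 * (P.card : ℝ) ≤ ∑ p ∈ A, EE K (Ioc M (M + L)) (yy p) ^ 2 := by
    have h3 : ∑ _p ∈ P, (W * (L / R)) ^ 2 ≤ ∑ p ∈ P, EE K (Ioc M (M + L)) (yy p) ^ 2 := by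
      refine Finset.sum_le_sum fun p hp => ?_
      rw [hP, mem_filter] at hp
      exact pow_le_pow_left₀ (by positivity) hp.2.2.le 2
    rw [Finset.sum_const, nsmul_eq_mul, mul_comm] at h3
    refine h3.trans (Finset.sum_le_sum_of_subset_of_nonneg ?_ fun p _ _ => sq_nonneg _)
    intro p hp
    rw [hP, mem_filter] at hp
    rw [hA, mem_filter]
    exact ⟨hp.1, hp.2.1⟩
  have h3 : ∑ p ∈ A, EE K (Ioc M (M + L)) (yy p) ^ 2 ≤
      (W * H) * (C * W * (((Nat.log 2 K : ℕ) + 1) * H) * (L * ppi x)) := by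
    have h4 : ∑ p ∈ A, EE K (Ioc M (M + L)) (yy p) ^ 2 ≤
        ∑ p ∈ A, (W * H) * ∑ k ∈ s, (ww K k * cc K k) * ‖SS ((k : ℤ) - (K : ℕ)) M L p‖ ^ 2 :=
      Finset.sum_le_sum fun p _ => EE_sq K M L p
    refine h4.trans ?_
    rw [← Finset.mul_sum, Finset.sum_comm]
    apply mul_le_mul_of_nonneg_left _ (mul_nonneg hWp.le hH0)
    have h5 : ∀ k ∈ s, ∑ p ∈ A, (ww K k * cc K k) * ‖SS ((k : ℤ) - (K : ℕ)) M L p‖ ^ 2 ≤
        (C * W * (L * ppi x)) * (cc K k * g (((K : ℕ) : ℤ) - (k : ℤ)).natAbs) := by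
      intro k hk
      rw [← Finset.mul_sum]
      have h6 := h1 k hk
      have h7 := mul_le_mul_of_nonneg_left h6 (mul_nonneg (ww_nonneg K k) (cc_nonneg K k))
      refine h7.trans ?_
      have hg1 : 1 ≤ g (((K : ℕ) : ℤ) - (k : ℤ)).natAbs := one_le_pow₀ (by norm_num)
      set G := g (((K : ℕ) : ℤ) - (k : ℤ)).natAbs with hG
      have h9 : ww K k * cc K k ≤ W * cc K k := mul_le_mul_of_nonneg_right (ww_le K k) (cc_nonneg K k)
      have h8 : (ww K k * cc K k) * (C * G * L * ppi x) ≤ (W * cc K k) * (C * G * L * ppi x) :=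
        mul_le_mul_of_nonneg_right h9 (by positivity)
      refine h8.trans (le_of_eq ?_)
      ring
    refine (Finset.sum_le_sum h5).trans ?_
    rw [← Finset.mul_sum, cc_sum' K g]
    have h6 : ∑ i ∈ range K, g (i + 1) / ((i + 1 : ℕ) : ℝ) ≤ ((Nat.log 2 K : ℕ) + 1) * H := two_sum K
    have h7 := mul_le_mul_of_nonneg_left h6 (show 0 ≤ C * W * (L * ppi x) by positivity)
    refine h7.trans (le_of_eq ?_)
    ring
  have h4 := h2.trans h3
  have e1 : (W * (L / R)) ^ 2 * (P.card : ℝ) = (P.card : ℝ) * (W ^ 2 * (L : ℝ) ^ 2 / R ^ 2) := by ring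
  have e2 : (W * H) * (C * W * (((Nat.log 2 K : ℕ) + 1) * H) * (L * ppi x)) =
      (C * ((R : ℝ) ^ 2 * H ^ 2 * ((Nat.log 2 K : ℕ) + 1)) / L * ppi x) * (W ^ 2 * (L : ℝ) ^ 2 / R ^ 2) := by
    field_simp
  rw [e1, e2] at h4
  have h5 := le_of_mul_le_mul_right h4 (by positivity)
  refine h5.trans ?_
  apply mul_le_mul_of_nonneg_right _ (Nat.cast_nonneg _)
  apply div_le_div_of_nonneg_right _ hLp.le
  apply mul_le_mul_of_nonneg_left _ hC.le
  have h6 : 0 ≤ (R : ℝ) ^ 2 * H ^ 2 * ((Nat.log 2 K : ℕ) + 1) := by positivity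
  nlinarith

/-- **Theorem** (uniform equidistribution). -/
theorem equi_w {δ : ℝ} (hδ : 0 < δ) : ∃ C : ℝ, 0 < C ∧ ∀ x M L N : ℕ, 1 ≤ L → 1 ≤ N → Cond δ M L x →
      (Nat.card {p : ℕ // p.Prime ∧ p ≤ x ∧ ∃ θ ℓ : ℝ, 0 ≤ ℓ ∧ ℓ ≤ 1 ∧ (L : ℝ) / N < |(arc M L p θ ℓ : ℝ) - ℓ * L|} : ℝ) ≤
        C * (N : ℝ) ^ 2 * (1 + Real.log N) ^ 3 / L * (Nat.card {p : ℕ // p.Prime ∧ p ≤ x}) := by
  classical
  -- we may suppose `δ < 1`
  set δ' := min δ (1 / 2) with hδ'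
  have hδ'0 : 0 < δ' := lt_min hδ (by norm_num)
  have hδ'1 : δ' < 1 := lt_of_le_of_lt (min_le_right _ _) (by norm_num)
  have hδδ : δ' ≤ δ := min_le_left _ _
  obtain ⟨C, hC, x1, hexc⟩ := exc_count hδ'0 hδ'1
  set B : ℝ := 700000 * C + 2 + x1 with hB
  have hx1r : 0 ≤ (x1 : ℝ) := Nat.cast_nonneg x1
  have hB0 : 0 < B := by positivity
  refine ⟨B, hB0, fun x M L N hL hN hT => ?_⟩
  have hLp : (1 : ℝ) ≤ L := by exact_mod_cast hL
  have hL0 : (0 : ℝ) < L := by linarith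
  have hNp : (1 : ℝ) ≤ N := by exact_mod_cast hN
  have hlN : 0 ≤ Real.log N := Real.log_nonneg hNp
  have hlx : 0 ≤ Real.log (x : ℝ) := Real.log_natCast_nonneg x
  have e1 : Nat.card {p : ℕ // p.Prime ∧ p ≤ x} = ppi x := by
    unfold ppi
    refine Nat.subtype_card _ fun p => ?_
    rw [mem_filter, mem_range, Nat.lt_succ_iff, and_comm]
  rw [e1]
  have hpp0 : (0 : ℝ) ≤ (ppi x : ℝ) := Nat.cast_nonneg _
  have h5 : Nat.card {p : ℕ // p.Prime ∧ p ≤ x ∧ ∃ θ ℓ : ℝ, 0 ≤ ℓ ∧ ℓ ≤ 1 ∧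
      (L : ℝ) / N < |(arc M L p θ ℓ : ℝ) - ℓ * L|} =
      ((range (x + 1)).filter fun p => p.Prime ∧ p ≤ x ∧ ∃ θ ℓ : ℝ, 0 ≤ ℓ ∧ ℓ ≤ 1 ∧
        (L : ℝ) / N < |(arc M L p θ ℓ : ℝ) - ℓ * L|).card := by
    refine Nat.subtype_card _ fun p => ?_
    rw [mem_filter, mem_range, Nat.lt_succ_iff]
    tauto
  rw [h5]
  set G : ℝ := (N : ℝ) ^ 2 * (1 + Real.log N) ^ 3 with hG
  have hG1 : (N : ℝ) ^ 2 ≤ G := by
    rw [hG]
    have h1 : (1 : ℝ) ≤ (1 + Real.log N) ^ 3 := one_le_pow₀ (by linarith)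
    have h2 : (0 : ℝ) ≤ (N : ℝ) ^ 2 := by positivity
    nlinarith
  have hG0 : 1 ≤ G := le_trans (one_le_pow₀ hNp) hG1
  have e2 : B * (N : ℝ) ^ 2 * (1 + Real.log N) ^ 3 / L = B * G / L := by
    rw [hG]
    ring
  rw [e2]
  have hB1 : 2 + (x1 : ℝ) ≤ B := by
    rw [hB]
    nlinarith
  by_cases hcase : (L : ℝ) ≤ B * G
  · -- trivial
    have h1 : (1 : ℝ) ≤ B * G / L := by
      rw [le_div_iff₀ hL0, one_mul]
      exact hcase
    have h2 : (((range (x + 1)).filter fun p => p.Prime ∧ p ≤ x ∧ ∃ θ ℓ : ℝ, 0 ≤ ℓ ∧ ℓ ≤ 1 ∧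
        (L : ℝ) / N < |(arc M L p θ ℓ : ℝ) - ℓ * L|).card : ℝ) ≤ ppi x := by
      have h3 : ((range (x + 1)).filter fun p => p.Prime ∧ p ≤ x ∧ ∃ θ ℓ : ℝ, 0 ≤ ℓ ∧ ℓ ≤ 1 ∧
        (L : ℝ) / N < |(arc M L p θ ℓ : ℝ) - ℓ * L|) ⊆ (range (x + 1)).filter Nat.Prime := by
        intro p hp
        rw [mem_filter] at hp ⊢
        exact ⟨hp.1, hp.2.1⟩
      exact_mod_cast Finset.card_le_card h3
    nlinarith
  · push Not at hcase
    have hN2 : (N : ℝ) ^ 2 ≤ L := by nlinarith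
    have hBL : B ≤ L := by nlinarith
    have hTL : (L : ℝ) ≤ ((M + L : ℕ) : ℝ) := by exact_mod_cast Nat.le_add_left L M
    -- the condition for `δ'`, and `x ≥ 1`
    have hx1 : 1 ≤ x := by
      by_contra hcon
      have hx0 : x = 0 := by omega
      have hML : (M + L : ℕ) ≤ (Icc (M + 1) (M + L)).lcm id := le_LQ hL
      rcases hT with h | h
      · rw [hx0] at h
        have h1 : (((0 : ℕ) : ℝ)) ^ (1 - δ) ≤ 1 := by
          rw [Nat.cast_zero]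
          exact Real.zero_rpow_le_one _
        have h2 : ((M + L : ℕ) : ℝ) ≤ 1 := by
          refine le_trans ?_ (h.trans h1)
          exact_mod_cast hML
        linarith
      · rw [hx0] at h
        simp only [Nat.cast_zero, Real.log_zero, mul_zero] at h
        linarith
    have hx1r' : (1 : ℝ) ≤ x := by exact_mod_cast hx1
    have hT' : Cond δ' M L x := by
      rcases hT with h | h
      · left
        exact h.trans (Real.rpow_le_rpow_of_exponent_le hx1r' (by linarith))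
      · right
        exact h.trans (mul_le_mul_of_nonneg_right (by linarith) hlx)
    have hLx : (L : ℝ) ≤ x := by
      rcases hT' with h | h
      · have hML : (M + L : ℕ) ≤ (Icc (M + 1) (M + L)).lcm id := le_LQ hL
        have h1 : ((M + L : ℕ) : ℝ) ≤ (x : ℝ) ^ (1 - δ') := by
          refine le_trans ?_ h
          exact_mod_cast hML
        have h2 : (x : ℝ) ^ (1 - δ') ≤ (x : ℝ) ^ (1 : ℝ) :=
          Real.rpow_le_rpow_of_exponent_le hx1r' (by linarith)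
        rw [Real.rpow_one] at h2
        linarith
      · have h1 : Real.log (x : ℝ) ≤ x - 1 := Real.log_le_sub_one_of_pos (by linarith)
        have h2 : (1 - δ') * Real.log x ≤ Real.log x := by nlinarith
        linarith
    have hxx1 : x1 ≤ x := by
      have : (x1 : ℝ) ≤ x := by linarith
      exact_mod_cast this
    obtain ⟨hLlog, hexc'⟩ := hexc x M L hxx1 hL hT'
    have hR3 : (((10 * N) ^ 3 : ℕ) : ℝ) ≤ 4000 * Real.log x ^ 2 := by
      have h1 : (N : ℝ) ^ 2 ≤ 2 * Real.log x := hN2.trans hLlog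
      have h2 : ((N : ℝ) ^ 2) ^ 2 ≤ (2 * Real.log x) ^ 2 := pow_le_pow_left₀ (by positivity) h1 2
      have h3 : (N : ℝ) ^ 3 ≤ ((N : ℝ) ^ 2) ^ 2 := by
        rw [← pow_mul]
        exact pow_le_pow_right₀ hNp (by norm_num)
      push_cast
      rw [mul_pow]
      nlinarith
    have h3 := hexc' (10 * N) (by omega) hR3
    have h4 : C * (9 * (((10 * N : ℕ) : ℝ)) ^ 2 * ((harmonic ((10 * N) ^ 3) : ℚ) : ℝ) ^ 2 *
      ((Nat.log 2 ((10 * N) ^ 3) : ℕ) + 1)) / L * ppi x ≤ B * G / L * ppi x := by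
      apply mul_le_mul_of_nonneg_right _ hpp0
      apply div_le_div_of_nonneg_right _ hL0.le
      have h6 := mul_le_mul_of_nonneg_left (const_le hN) hC.le
      refine h6.trans ?_
      rw [← hG]
      have : 700000 * C * G ≤ B * G := by
        apply mul_le_mul_of_nonneg_right _ (by linarith)
        rw [hB]
        linarith
      linarith
    refine le_trans ?_ (h3.trans h4)
    have h6 : ((range (x + 1)).filter fun p => p.Prime ∧ p ≤ x ∧ ∃ θ ℓ : ℝ, 0 ≤ ℓ ∧ ℓ ≤ 1 ∧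
        (L : ℝ) / N < |(arc M L p θ ℓ : ℝ) - ℓ * L|) ⊆
      ((range (x + 1)).filter fun p => p.Prime ∧
        ww ((10 * N) ^ 3) ((10 * N) ^ 3) * (L / (10 * N : ℕ)) < EE ((10 * N) ^ 3) (Ioc M (M + L)) (yy p)) := by
      intro p hp
      rw [mem_filter] at hp
      rw [mem_filter]
      refine ⟨hp.1, hp.2.1, ?_⟩
      by_contra h6
      rw [not_lt] at h6
      obtain ⟨θ, ℓ, h7, h8, h9⟩ := hp.2.2.2
      exact absurd (arc_discrepancy hN h6 h7 h8) (not_le.2 h9)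
    exact_mod_cast Finset.card_le_card h6

end Pool.Agent.Lib.MP_de5eaa_nt.Win
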