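import Pool.Agent.Lib.MP_de5eaa_nt.Win.X1

/-! The second moment of a long window is at most the sum over short windows. -/

set_option autoImplicit false

namespace Pool.Agent.Lib.MP_de5eaa_nt.Win

open Finset Filter Topology
open Pool.Agent.Lib.MP_de5eaa_nt.Near

theorem SS_add (j : ℤ) (M a b p : ℕ) : SS j M (a + b) p = SS j M a p + SS j (M + a) b p := by
  unfold SS
  rw [← Finset.sum_union]
  · congr 1
    ext n
    rw [mem_union, mem_Ioc, mem_Ioc, mem_Ioc]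
    omega
  · rw [Finset.disjoint_left]
    intro n h1 h2
    rw [mem_Ioc] at h1 h2
    omega

theorem SS_zero (j : ℤ) (M p : ℕ) : SS j M 0 p = 0 := by
  unfold SS
  simp

theorem pieces (A : Finset ℕ) (j : ℤ) {B : ℝ} (hB : 0 ≤ B) {w T : ℕ} (hw : 1 ≤ w)
    (h : ∀ M L : ℕ, 1 ≤ L → L ≤ w → M + L ≤ T → ∑ p ∈ A, ‖SS j M L p‖ ^ 2 ≤ B * L) :
    ∀ k M L : ℕ, L ≤ (k + 1) * w → M + L ≤ T → ∑ p ∈ A, ‖SS j M L p‖ ^ 2 ≤ ((k : ℝ) + 1) * B * L := by
  intro k
  induction k with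
  | zero =>
    intro M L hL hT
    rcases Nat.eq_zero_or_pos L with h0 | h0
    · rw [h0, Finset.sum_eq_zero fun p _ => by rw [SS_zero]; simp]
      simp
    · have := h M L h0 (by omega) hT
      push_cast
      linarith
  | succ k ih =>
    intro M L hL hT
    by_cases hs : L ≤ (k + 1) * w
    · have h1 := ih M L hs hT
      have h2 : ((k : ℝ) + 1) * B * L ≤ (((k + 1 : ℕ) : ℝ) + 1) * B * L := by
        push_cast
        have : 0 ≤ B * L := mul_nonneg hB (Nat.cast_nonneg _)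
        nlinarith
      exact h1.trans h2
    · push Not at hs
      obtain ⟨b, hb⟩ : ∃ b, L = (k + 1) * w + b := ⟨L - (k + 1) * w, by omega⟩
      set a := (k + 1) * w with ha
      have hb1 : 1 ≤ b := by omega
      have hbw : b ≤ w := by
        have : (k + 1 + 1) * w = (k + 1) * w + w := by ring
        rw [this] at hL
        omega
      have h1 := ih M a le_rfl (by omega)
      have h2 := h (M + a) b hb1 hbw (by omega)
      have hk : (0 : ℝ) < (k : ℝ) + 1 := by positivity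
      have h3 : ∀ p ∈ A, ‖SS j M L p‖ ^ 2 ≤ (1 + 1 / ((k : ℝ) + 1)) * ‖SS j M a p‖ ^ 2 +
          (1 + ((k : ℝ) + 1)) * ‖SS j (M + a) b p‖ ^ 2 := by
        intro p _
        rw [hb, SS_add]
        have h4 := norm_add_le (SS j M a p) (SS j (M + a) b p)
        have h5 := pow_le_pow_left₀ (norm_nonneg _) h4 2
        refine h5.trans ?_
        set u := ‖SS j M a p‖
        set v := ‖SS j (M + a) b p‖
        have h6 : (1 + 1 / ((k : ℝ) + 1)) * u ^ 2 + (1 + ((k : ℝ) + 1)) * v ^ 2 - (u + v) ^ 2 =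
            (u - ((k : ℝ) + 1) * v) ^ 2 / ((k : ℝ) + 1) := by
          field_simp
          ring
        have h7 : 0 ≤ (u - ((k : ℝ) + 1) * v) ^ 2 / ((k : ℝ) + 1) := by positivity
        linarith
      refine (Finset.sum_le_sum h3).trans ?_
      rw [Finset.sum_add_distrib, ← Finset.mul_sum, ← Finset.mul_sum]
      have h4 : (1 + 1 / ((k : ℝ) + 1)) * ∑ p ∈ A, ‖SS j M a p‖ ^ 2 ≤
          (1 + 1 / ((k : ℝ) + 1)) * (((k : ℝ) + 1) * B * a) := mul_le_mul_of_nonneg_left h1 (by positivity)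
      have h5 : (1 + ((k : ℝ) + 1)) * ∑ p ∈ A, ‖SS j (M + a) b p‖ ^ 2 ≤ (1 + ((k : ℝ) + 1)) * (B * b) :=
        mul_le_mul_of_nonneg_left h2 (by positivity)
      have h6 : (1 + 1 / ((k : ℝ) + 1)) * (((k : ℝ) + 1) * B * a) = ((k : ℝ) + 2) * B * a := by
        field_simp
        ring
      have h7 : (L : ℝ) = (a : ℝ) + b := by
        rw [hb]
        push_cast
        ring
      rw [h7]
      push_cast
      rw [h6] at h4
      have h8 : ((k : ℝ) + 1 + 1) * B * ((a : ℝ) + b) = ((k : ℝ) + 2) * B * a + (1 + ((k : ℝ) + 1)) * (B * b) := by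
        ring
      rw [h8]
      linarith

open Classical in
/-- The number of the exceptional primes from the second moments. -/
theorem exc_gen {M L R x : ℕ} {B : ℝ} (hB : 0 ≤ B) (hL : 1 ≤ L) (hR : 2 ≤ R)
    (hmom : ∀ j : ℤ, j ≠ 0 → |(j : ℝ)| ≤ ((R ^ 3 : ℕ) : ℝ) →
      ∑ p ∈ (range (x + 1)).filter Nat.Prime, ‖SS j M L p‖ ^ 2 ≤
        B * 2 ^ padicValNat 2 j.natAbs * L * ppi x) :
    (((range (x + 1)).filter fun p => p.Prime ∧
      ww (R ^ 3) (R ^ 3) * (L / R) < EE (R ^ 3) (Ioc M (M + L)) (yy p)).card : ℝ) ≤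
      B * (9 * (R : ℝ) ^ 2 * ((harmonic (R ^ 3) : ℚ) : ℝ) ^ 2 * ((Nat.log 2 (R ^ 3) : ℕ) + 1)) / L * ppi x := by
  set K := R ^ 3 with hK
  have hRp : (0 : ℝ) < R := by
    have : 0 < R := by omega
    exact_mod_cast this
  have hLp : (0 : ℝ) < L := by
    have : 0 < L := by omega
    exact_mod_cast this
  set W := ww K K with hW
  have hWp : 0 < W := ww_mid_pos hR
  set H := ((harmonic K : ℚ) : ℝ) with hH
  have hH0 : 0 ≤ H := by
    rw [hH, ← cc_sum]
    exact Finset.sum_nonneg fun k _ => cc_nonneg _ _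
  set s := (range (2 * K + 1)).erase K with hs
  set g : ℕ → ℝ := fun i => (2 : ℝ) ^ padicValNat 2 i with hg
  set A := (range (x + 1)).filter Nat.Prime with hA
  have h1 : ∀ k ∈ s, ∑ p ∈ A, ‖SS ((k : ℤ) - (K : ℕ)) M L p‖ ^ 2 ≤
      B * g (((K : ℕ) : ℤ) - (k : ℤ)).natAbs * L * ppi x := by
    intro k hk
    rw [hs, mem_erase, mem_range] at hk
    have hne : ((k : ℤ) - (K : ℕ) : ℤ) ≠ 0 := by
      have := hk.1
      omega
    have e : ((k : ℤ) - (K : ℕ) : ℤ).natAbs = (((K : ℕ) : ℤ) - (k : ℤ)).natAbs := by omega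
    have h3 : |(((k : ℤ) - (K : ℕ) : ℤ) : ℝ)| ≤ ((K : ℕ) : ℝ) := by
      have h4 : |((k : ℤ) - (K : ℕ) : ℤ)| ≤ (K : ℤ) := by
        rw [abs_le]
        constructor <;> omega
      exact_mod_cast h4
    have h2 := hmom ((k : ℤ) - (K : ℕ)) hne h3
    rw [e] at h2
    exact h2
  set P := (range (x + 1)).filter (fun p => p.Prime ∧ W * (L / R) < EE K (Ioc M (M + L)) (yy p)) with hP
  have h2 : (W * (L / R)) ^ 2 * (P.card : ℝ) ≤ ∑ p ∈ A, EE K (Ioc M (M + L)) (yy p) ^ 2 := by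
    have h3 : ∑ _p ∈ P, (W * (L / R)) ^ 2 ≤ ∑ p ∈ P, EE K (Ioc M (M + L)) (yy p) ^ 2 := by
      refine Finset.sum_le_sum fun p hp => ?_
      rw [hP, mem_filter] at hp
      exact pow_le_pow_left₀ (by positivity) hp.2.2.le 2
    rw [Finset.sum_const, nsmul_eq_mul, mul_comm] at h3
    refine h3.trans (Finset.sum_le_sum_of_subset_of_nonneg ?_ fun p _ _ => sq_nonneg _)
    intro p hp
    rw [hP, mem_filter] at hp
    rw [hA, mem_filter]
    exact ⟨hp.1, hp.2.1⟩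
  have h3 : ∑ p ∈ A, EE K (Ioc M (M + L)) (yy p) ^ 2 ≤
      (W * H) * (B * W * (((Nat.log 2 K : ℕ) + 1) * H) * (L * ppi x)) := by
    have h4 : ∑ p ∈ A, EE K (Ioc M (M + L)) (yy p) ^ 2 ≤
        ∑ p ∈ A, (W * H) * ∑ k ∈ s, (ww K k * cc K k) * ‖SS ((k : ℤ) - (K : ℕ)) M L p‖ ^ 2 :=
      Finset.sum_le_sum fun p _ => EE_sq K M L p
    refine h4.trans ?_
    rw [← Finset.mul_sum, Finset.sum_comm]
    apply mul_le_mul_of_nonneg_left _ (mul_nonneg hWp.le hH0)
    have h5 : ∀ k ∈ s, ∑ p ∈ A, (ww K k * cc K k) * ‖SS ((k : ℤ) - (K : ℕ)) M L p‖ ^ 2 ≤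
        (B * W * (L * ppi x)) * (cc K k * g (((K : ℕ) : ℤ) - (k : ℤ)).natAbs) := by
      intro k hk
      rw [← Finset.mul_sum]
      have h6 := h1 k hk
      have h7 := mul_le_mul_of_nonneg_left h6 (mul_nonneg (ww_nonneg K k) (cc_nonneg K k))
      refine h7.trans ?_
      have hg1 : 1 ≤ g (((K : ℕ) : ℤ) - (k : ℤ)).natAbs := one_le_pow₀ (by norm_num)
      set G := g (((K : ℕ) : ℤ) - (k : ℤ)).natAbs with hG
      have h9 : ww K k * cc K k ≤ W * cc K k := mul_le_mul_of_nonneg_right (ww_le K k) (cc_nonneg K k)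
      have h8 : (ww K k * cc K k) * (B * G * L * ppi x) ≤ (W * cc K k) * (B * G * L * ppi x) :=
        mul_le_mul_of_nonneg_right h9 (by positivity)
      refine h8.trans (le_of_eq ?_)
      ring
    refine (Finset.sum_le_sum h5).trans ?_
    rw [← Finset.mul_sum, cc_sum' K g]
    have h6 : ∑ i ∈ range K, g (i + 1) / ((i + 1 : ℕ) : ℝ) ≤ ((Nat.log 2 K : ℕ) + 1) * H := two_sum K
    have h7 := mul_le_mul_of_nonneg_left h6 (show 0 ≤ B * W * (L * ppi x) by positivity)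
    refine h7.trans (le_of_eq ?_)
    ring
  have h4 := h2.trans h3
  have e1 : (W * (L / R)) ^ 2 * (P.card : ℝ) = (P.card : ℝ) * (W ^ 2 * (L : ℝ) ^ 2 / R ^ 2) := by ring
  have e2 : (W * H) * (B * W * (((Nat.log 2 K : ℕ) + 1) * H) * (L * ppi x)) =
      (B * ((R : ℝ) ^ 2 * H ^ 2 * ((Nat.log 2 K : ℕ) + 1)) / L * ppi x) * (W ^ 2 * (L : ℝ) ^ 2 / R ^ 2) := by
    field_simp
  rw [e1, e2] at h4
  have h5 := le_of_mul_le_mul_right h4 (by positivity)
  refine h5.trans ?_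
  apply mul_le_mul_of_nonneg_right _ (Nat.cast_nonneg _)
  apply div_le_div_of_nonneg_right _ hLp.le
  apply mul_le_mul_of_nonneg_left _ hB
  have h6 : 0 ≤ (R : ℝ) ^ 2 * H ^ 2 * ((Nat.log 2 K : ℕ) + 1) := by positivity
  nlinarith

end Pool.Agent.Lib.MP_de5eaa_nt.Win
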