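import Pool.Agent.Lib.MP_de5eaa_nt.Win.X2

/-! Equidistribution in every window. -/

set_option autoImplicit false

namespace Pool.Agent.Lib.MP_de5eaa_nt.Win

open Finset Filter Topology
open Pool.Agent.Lib.MP_de5eaa_nt.Near

theorem cond_piece {x M w : ℕ} {T : ℝ} (hx : 0 < Real.log (x : ℝ)) (hw : 1 ≤ w) (hT : ((M + w : ℕ) : ℝ) ≤ T)
    (hwl : (w : ℝ) ≤ wlen (Real.log x) T) : Cond (1 / 2) M w x := by
  left
  have h1 := LQ_log hx hw hT hwl
  have hx0 : (0 : ℝ) < x := by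
    by_contra hcon
    have h1 : (x : ℝ) = 0 := le_antisymm (not_lt.1 hcon) (Nat.cast_nonneg x)
    rw [h1, Real.log_zero] at hx
    exact lt_irrefl _ hx
  have hLr : (0 : ℝ) < LQ M w := by exact_mod_cast LQ_pos M w
  have h2 : (LQ M w : ℝ) ≤ (x : ℝ) ^ (1 - 1 / 2 : ℝ) := by
    rw [← Real.exp_log hLr, ← Real.exp_log (Real.rpow_pos_of_pos hx0 _), Real.log_rpow hx0]
    apply Real.exp_le_exp.2
    linarith
  exact h2

/-- **Theorem** (equidistribution in every window). -/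
theorem equi_x : ∃ C : ℝ, 0 < C ∧ ∀ x M L N : ℕ, 1 ≤ L → 1 ≤ N →
      (Nat.card {p : ℕ // p.Prime ∧ p ≤ x ∧ ∃ θ ℓ : ℝ, 0 ≤ ℓ ∧ ℓ ≤ 1 ∧ (L : ℝ) / N < |(arc M L p θ ℓ : ℝ) - ℓ * L|} : ℝ) ≤
        C * (N : ℝ) ^ 2 * (1 + Real.log N) ^ 3 *
          (1 / L + Real.log (2 + ((M : ℝ) + L) / Real.log x) / Real.log x) *
            (Nat.card {p : ℕ // p.Prime ∧ p ≤ x}) := by
  classical
  obtain ⟨C0, hC0, x1, hmom⟩ := moment_w (δ := 1 / 2) (by norm_num) (by norm_num)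
  set C : ℝ := 200000000 * C0 + 2 * Real.log x1 + 100 with hC
  have hx1log : 0 ≤ Real.log (x1 : ℝ) := Real.log_natCast_nonneg x1
  have hCp : 0 < C := by positivity
  refine ⟨C, hCp, fun x M L N hL hN => ?_⟩
  have hLp : (1 : ℝ) ≤ L := by exact_mod_cast hL
  have hL0 : (0 : ℝ) < L := by linarith
  have hNp : (1 : ℝ) ≤ N := by exact_mod_cast hN
  have hlN : 0 ≤ Real.log N := Real.log_nonneg hNp
  have hM0 : (0 : ℝ) ≤ M := Nat.cast_nonneg M
  have e1 : Nat.card {p : ℕ // p.Prime ∧ p ≤ x} = ppi x := by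
    unfold ppi
    refine Nat.subtype_card _ fun p => ?_
    rw [mem_filter, mem_range, Nat.lt_succ_iff, and_comm]
  rw [e1]
  have hpp0 : (0 : ℝ) ≤ (ppi x : ℝ) := Nat.cast_nonneg _
  have h5 : Nat.card {p : ℕ // p.Prime ∧ p ≤ x ∧ ∃ θ ℓ : ℝ, 0 ≤ ℓ ∧ ℓ ≤ 1 ∧
      (L : ℝ) / N < |(arc M L p θ ℓ : ℝ) - ℓ * L|} =
      ((range (x + 1)).filter fun p => p.Prime ∧ p ≤ x ∧ ∃ θ ℓ : ℝ, 0 ≤ ℓ ∧ ℓ ≤ 1 ∧
        (L : ℝ) / N < |(arc M L p θ ℓ : ℝ) - ℓ * L|).card := by
    refine Nat.subtype_card _ fun p => ?_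
    rw [mem_filter, mem_range, Nat.lt_succ_iff]
    tauto
  rw [h5]
  have htriv : (((range (x + 1)).filter fun p => p.Prime ∧ p ≤ x ∧ ∃ θ ℓ : ℝ, 0 ≤ ℓ ∧ ℓ ≤ 1 ∧
        (L : ℝ) / N < |(arc M L p θ ℓ : ℝ) - ℓ * L|).card : ℝ) ≤ ppi x := by
    have h3 : ((range (x + 1)).filter fun p => p.Prime ∧ p ≤ x ∧ ∃ θ ℓ : ℝ, 0 ≤ ℓ ∧ ℓ ≤ 1 ∧
      (L : ℝ) / N < |(arc M L p θ ℓ : ℝ) - ℓ * L|) ⊆ (range (x + 1)).filter Nat.Prime := by
      intro p hp
      rw [mem_filter] at hp ⊢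
      exact ⟨hp.1, hp.2.1⟩
    exact_mod_cast Finset.card_le_card h3
  -- no primes
  rcases Nat.lt_or_ge x 2 with hx2 | hx2
  · have h0 : ppi x = 0 := by
      unfold ppi
      rw [Finset.card_eq_zero, Finset.filter_eq_empty_iff]
      intro p hp hpp
      rw [mem_range] at hp
      have := hpp.two_le
      omega
    rw [h0] at htriv ⊢
    simpa using htriv
  have hx2r : (2 : ℝ) ≤ x := by exact_mod_cast hx2
  have hl : 0 < Real.log (x : ℝ) := Real.log_pos (by linarith)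
  set l := Real.log (x : ℝ) with hldef
  set T : ℝ := (M : ℝ) + L with hT
  have hT0 : 0 < T := by linarith
  set b : ℝ := Real.log (2 + T / l) with hb
  have hl2 : 0.69 < Real.log 2 := by
    have := Real.log_two_gt_d9
    linarith
  have hb2 : Real.log 2 ≤ b := Real.log_le_log (by norm_num) (by linarith [div_pos hT0 hl])
  have hb0 : 0 < b := by linarith
  set G : ℝ := (N : ℝ) ^ 2 * (1 + Real.log N) ^ 3 with hG
  have hG1 : (N : ℝ) ^ 2 ≤ G := by
    rw [hG]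
    have h1 : (1 : ℝ) ≤ (1 + Real.log N) ^ 3 := one_le_pow₀ (by linarith)
    have h2 : (0 : ℝ) ≤ (N : ℝ) ^ 2 := by positivity
    nlinarith
  have hN21 : (1 : ℝ) ≤ (N : ℝ) ^ 2 := one_le_pow₀ hNp
  have hG0 : 1 ≤ G := hN21.trans hG1
  set V : ℝ := 1 / L + b / l with hV
  have hV0 : 0 < V := by positivity
  have e2 : C * (N : ℝ) ^ 2 * (1 + Real.log N) ^ 3 * V = C * G * V := by
    rw [hG]
    ring
  rw [e2]
  by_cases hcase : 1 ≤ C * G * V
  · exact htriv.trans (le_mul_of_one_le_left hpp0 hcase)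
  push Not at hcase
  -- `C N^2 b / l < 1`
  have hblpos : 0 < b / l := by positivity
  have hbV : b / l ≤ V := by
    rw [hV]
    have : (0 : ℝ) < 1 / L := by positivity
    linarith
  have h6 : C * (N : ℝ) ^ 2 * (b / l) < 1 := by
    refine lt_of_le_of_lt ?_ hcase
    apply mul_le_mul (mul_le_mul_of_nonneg_left hG1 hCp.le) hbV hblpos.le
    positivity
  have h7 : C * (N : ℝ) ^ 2 * b < l := by
    rw [← mul_div_assoc, div_lt_one hl] at h6
    exact h6
  have h8 : C * b < l := by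
    refine lt_of_le_of_lt ?_ h7
    have : C * b ≤ (C * b) * (N : ℝ) ^ 2 := le_mul_of_one_le_right (by positivity) hN21
    linarith
  have hC100 : 100 ≤ C := by
    rw [hC]
    nlinarith
  have hCx1 : 2 * Real.log x1 ≤ C := by
    rw [hC]
    nlinarith
  have h9 : C * 0.69 ≤ C * b := mul_le_mul_of_nonneg_left (by linarith) hCp.le
  have hxx1 : x1 ≤ x := by
    by_contra hcon
    push Not at hcon
    have h1 : l ≤ Real.log (x1 : ℝ) := Real.log_le_log (by linarith) (by exact_mod_cast hcon.le)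
    linarith
  have hN2l : (N : ℝ) ^ 2 ≤ 2 * l := by
    have h10 : (100 * 0.69) * (N : ℝ) ^ 2 ≤ (C * b) * (N : ℝ) ^ 2 := by
      apply mul_le_mul_of_nonneg_right _ (by positivity)
      linarith
    have h11 : (C * b) * (N : ℝ) ^ 2 = C * (N : ℝ) ^ 2 * b := by ring
    have h12 : (0 : ℝ) < (N : ℝ) ^ 2 := by linarith
    linarith
  have hR3 : (((10 * N) ^ 3 : ℕ) : ℝ) ≤ 4000 * l ^ 2 := by
    have h2 : ((N : ℝ) ^ 2) ^ 2 ≤ (2 * l) ^ 2 := pow_le_pow_left₀ (by positivity) hN2l 2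
    have h3 : (N : ℝ) ^ 3 ≤ ((N : ℝ) ^ 2) ^ 2 := by
      rw [← pow_mul]
      exact pow_le_pow_right₀ hNp (by norm_num)
    push_cast
    rw [mul_pow]
    nlinarith
  -- the length of the pieces
  have hwl1 : 1 ≤ wlen l T := by
    unfold wlen
    rw [le_div_iff₀ (by positivity), one_mul]
    have : 64 * b ≤ C * b := mul_le_mul_of_nonneg_right (by linarith) hb0.le
    linarith
  set w0 := ⌊wlen l T⌋₊ with hw0
  have hw0l : (w0 : ℝ) ≤ wlen l T := Nat.floor_le (by linarith)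
  have hw01 : 1 ≤ w0 := by
    rw [hw0, Nat.one_le_floor_iff]
    exact hwl1
  have hw0g : wlen l T / 2 ≤ w0 := by
    have h1 : wlen l T < (w0 : ℝ) + 1 := Nat.lt_floor_add_one _
    have h2 : (1 : ℝ) ≤ w0 := by exact_mod_cast hw01
    linarith
  set w := min w0 L with hw
  have hw1 : 1 ≤ w := le_min hw01 hL
  have hwL : w ≤ L := min_le_right _ _
  have hww0 : w ≤ w0 := min_le_left _ _
  have hw1r : (1 : ℝ) ≤ w := by exact_mod_cast hw1
  have hwLr : (w : ℝ) ≤ L := by exact_mod_cast hwL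
  -- the inverse of the length
  have hinv : 1 / (w : ℝ) ≤ 128 * V := by
    have h1 : 1 / (w0 : ℝ) ≤ 128 * (b / l) := by
      have h2 : 1 / (w0 : ℝ) ≤ 1 / (wlen l T / 2) := one_div_le_one_div_of_le (by linarith) hw0g
      refine h2.trans (le_of_eq ?_)
      unfold wlen
      rw [← hb]
      field_simp
      norm_num
    have h2 : (0 : ℝ) < 1 / L := by positivity
    rcases min_choice w0 L with h | h
    · rw [← hw] at h
      rw [h]
      rw [hV]
      linarith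
    · rw [← hw] at h
      rw [h, hV]
      linarith
  -- the moments
  have hmom' : ∀ j : ℤ, j ≠ 0 → |(j : ℝ)| ≤ (((10 * N) ^ 3 : ℕ) : ℝ) →
      ∑ p ∈ (range (x + 1)).filter Nat.Prime, ‖SS j M L p‖ ^ 2 ≤
        (2 * L * C0 / w) * 2 ^ padicValNat 2 j.natAbs * L * ppi x := by
    intro j hj hjK
    set t := padicValNat 2 j.natAbs with ht
    have hB : 0 ≤ C0 * 2 ^ t * (ppi x : ℝ) := by positivity
    have h1 := pieces ((range (x + 1)).filter Nat.Prime) j hB (w := w) (T := M + L) hw1 (by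
      intro M' L' hL' hLw hTT
      have hc : Cond (1 / 2) M' L' x := by
        apply cond_piece hl hL' (T := T)
        · rw [hT]
          exact_mod_cast hTT
        · refine le_trans ?_ hw0l
          exact_mod_cast hLw.trans hww0
      have h2 := (hmom x M' L' hxx1 hL' hc).2 j t (not_dvd_int hj) (hjK.trans hR3)
      refine h2.trans (le_of_eq ?_)
      ring) (L / w) M L (by
        have h3 := Nat.lt_div_mul_add (a := L) (b := w) (by omega)
        have h4 : (L / w + 1) * w = L / w * w + w := by ring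
        omega) le_rfl
    refine h1.trans ?_
    have h2 : ((L / w : ℕ) : ℝ) + 1 ≤ 2 * (L / w) := by
      have h3 : ((L / w : ℕ) : ℝ) ≤ (L : ℝ) / w := Nat.cast_div_le
      have h4 : 1 ≤ (L : ℝ) / w := by
        rw [le_div_iff₀ (by linarith), one_mul]
        exact hwLr
      linarith
    have h3 : (((L / w : ℕ) : ℝ) + 1) * (C0 * 2 ^ t * (ppi x : ℝ)) * L ≤
        (2 * ((L : ℝ) / w)) * (C0 * 2 ^ t * (ppi x : ℝ)) * L :=
      mul_le_mul_of_nonneg_right (mul_le_mul_of_nonneg_right h2 hB) hL0.le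
    refine h3.trans (le_of_eq ?_)
    ring
  have hBB : 0 ≤ 2 * L * C0 / (w : ℝ) := by positivity
  have h10 := exc_gen (M := M) (L := L) (R := 10 * N) (x := x) hBB hL (by omega) hmom'
  have h11 : (2 * L * C0 / (w : ℝ)) * (9 * (((10 * N : ℕ) : ℝ)) ^ 2 * ((harmonic ((10 * N) ^ 3) : ℚ) : ℝ) ^ 2 *
      ((Nat.log 2 ((10 * N) ^ 3) : ℕ) + 1)) / L * ppi x ≤ C * G * V * ppi x := by
    apply mul_le_mul_of_nonneg_right _ hpp0
    have h12 := mul_le_mul_of_nonneg_left (const_le hN) hBB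
    rw [← hG] at h12
    rw [div_le_iff₀ hL0]
    refine h12.trans ?_
    have h13 : (2 * L * C0 / (w : ℝ)) * (700000 * G) = (1400000 * C0 * G * L) * (1 / w) := by ring
    rw [h13]
    have h14 : (1400000 * C0 * G * L) * (1 / (w : ℝ)) ≤ (1400000 * C0 * G * L) * (128 * V) :=
      mul_le_mul_of_nonneg_left hinv (by positivity)
    refine h14.trans ?_
    have h15 : (1400000 * C0 * G * L) * (128 * V) = (179200000 * C0) * (G * V * L) := by ring
    have h16 : C * G * V * L = C * (G * V * L) := by ring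
    rw [h15, h16]
    apply mul_le_mul_of_nonneg_right _ (by positivity)
    rw [hC]
    linarith
  refine le_trans ?_ (h10.trans h11)
  have h12 : ((range (x + 1)).filter fun p => p.Prime ∧ p ≤ x ∧ ∃ θ ℓ : ℝ, 0 ≤ ℓ ∧ ℓ ≤ 1 ∧
      (L : ℝ) / N < |(arc M L p θ ℓ : ℝ) - ℓ * L|) ⊆
    ((range (x + 1)).filter fun p => p.Prime ∧
      ww ((10 * N) ^ 3) ((10 * N) ^ 3) * (L / (10 * N : ℕ)) < EE ((10 * N) ^ 3) (Ioc M (M + L)) (yy p)) := by
    intro p hp
    rw [mem_filter] at hp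
    rw [mem_filter]
    refine ⟨hp.1, hp.2.1, ?_⟩
    by_contra h6
    rw [not_lt] at h6
    obtain ⟨θ, ℓ, h7, h8, h9⟩ := hp.2.2.2
    exact absurd (arc_discrepancy hN h6 h7 h8) (not_le.2 h9)
  exact_mod_cast Finset.card_le_card h12

end Pool.Agent.Lib.MP_de5eaa_nt.Win
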